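import Mathlib
import Pool.Agent.W790.HP.HPF
import Pool.Agent.W74.HP.HPI

/-! The Hilbert property of a function field which is embedded in a field of rational functions:
polynomials without roots there are avoided. -/

set_option autoImplicit false

namespace Pool.Agent.K3h17.HQ

open Polynomial W560.HP Pool.Agent.W790.HP

/-- The conclusion of the Hilbert property for given polynomials. -/
def AvAll (k K : Type) [Field k] [Field K] [Algebra k K] {q : ℕ} (P : Fin q → K[X])
    (S : Finset K) : Prop :=
  ∃ (B : Subalgebra k K) (φ : B →ₐ[k] k) (P' : Fin q → B[X]),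
      (S : Set K) ⊆ B ∧ (∀ j, (P' j).map (algebraMap B K) = P j) ∧
      ∀ (j : Fin q) (x : k), ((P' j).map (φ : B →+* k)).eval x ≠ 0

/-- Avoiding polynomials without roots in the field of rational functions. -/
theorem avAll {k Ω ι : Type} [Field k] [Field Ω] [Algebra k Ω] [Finite ι] (t : ι → Ω)
    (K : IntermediateField k Ω) (hk : HilbNR k) (ht : AlgebraicIndependent k t)
    (htop : IntermediateField.adjoin k (Set.range t) = ⊤) {q : ℕ} (P : Fin q → K[X])
    (S : Finset K) (hP : ∀ j (x : Ω), ((P j).map (algebraMap K Ω)).eval x ≠ 0) :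
    AvAll k K P S := by
  classical
  -- the finite set
  let T : Finset Ω := (S.image fun x : K => (x : Ω)) ∪
    Finset.univ.biUnion fun j : Fin q => ((P j).coeffs.image fun x : K => (x : Ω)) ∪ {0}
  obtain ⟨G, hG, hT⟩ := common t ht htop T
  have hTS : ∀ x ∈ S, ∃ p, W790.HP.Rep t G (x : Ω) 1 p := by
    intro x hx
    apply hT
    simp only [T, Finset.mem_union, Finset.mem_image, Finset.mem_biUnion]
    exact Or.inl ⟨x, hx, rfl⟩
  have hTP : ∀ j n, ∃ p, W790.HP.Rep t G (((P j).coeff n : K) : Ω) 1 p := by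
    intro j n
    by_cases h0 : (P j).coeff n = 0
    · refine ⟨0, ?_⟩
      unfold W790.HP.Rep
      rw [h0]
      simp
    · apply hT
      simp only [T, Finset.mem_union, Finset.mem_image, Finset.mem_biUnion]
      refine Or.inr ⟨j, Finset.mem_univ _, Or.inl ⟨(P j).coeff n, ?_, rfl⟩⟩
      exact Polynomial.coeff_mem_coeffs h0
  set ψ : MvPolynomial ι k →+* Ω := ((MvPolynomial.aeval t : MvPolynomial ι k →ₐ[k] Ω) :
    MvPolynomial ι k →+* Ω) with hψ
  have hψi : Function.Injective ψ := ht
  have hlift : ∀ j, ∃ Q : (MvPolynomial ι k)[X],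
      Q.map ψ = Polynomial.C (ψ G) * (P j).map (algebraMap K Ω) := by
    intro j
    rw [← Polynomial.mem_lifts, Polynomial.lifts_iff_coeff_lifts]
    intro n
    obtain ⟨p, hp⟩ := hTP j n
    refine ⟨p, ?_⟩
    rw [Polynomial.coeff_C_mul, Polynomial.coeff_map]
    unfold W790.HP.Rep at hp
    rw [pow_one] at hp
    exact hp.symm
  choose Q hQ using hlift
  have hψG : ψ G ≠ 0 := fun h => hG (hψi (by rw [h, map_zero]))
  have hnoroot : ∀ j (x : Ω), (Q j |>.map ψ).eval x ≠ 0 := by
    intro j x hx
    rw [hQ, Polynomial.eval_mul, Polynomial.eval_C] at hx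
    exact hP j x ((mul_eq_zero.1 hx).resolve_left hψG)
  have hnoroot2 : ∀ (j : Fin q) (θ : FractionRing (MvPolynomial ι k)),
      ((Q j).map (algebraMap (MvPolynomial ι k) (FractionRing (MvPolynomial ι k)))).eval θ ≠ 0 := by
    intro j θ hθ
    let Λ : FractionRing (MvPolynomial ι k) →+* Ω := IsFractionRing.lift hψi
    apply hnoroot j (Λ θ)
    have h1 : (Q j).map ψ = ((Q j).map (algebraMap (MvPolynomial ι k)
        (FractionRing (MvPolynomial ι k)))).map Λ := by
      rw [Polynomial.map_map]
      congr 1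
      refine RingHom.ext fun x => ?_
      simp [Λ]
    rw [h1, Polynomial.eval_map, Polynomial.eval₂_hom, hθ, map_zero]
  obtain ⟨a, ha, hroot⟩ := hk ι q Q G hG hnoroot2
  have hliftB : ∀ j, ∃ P' : (BB t K G)[X], P'.map (algebraMap (BB t K G) K) = P j := by
    intro j
    rw [← Polynomial.mem_lifts, Polynomial.lifts_iff_coeff_lifts]
    intro n
    obtain ⟨p, hp⟩ := hTP j n
    exact ⟨⟨(P j).coeff n, 1, p, hp⟩, rfl⟩
  choose P' hP' using hliftB
  refine ⟨BB t K G, vh ht ha, P', ?_, hP', ?_⟩
  · intro x hx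
    obtain ⟨p, hp⟩ := hTS x hx
    exact ⟨1, p, hp⟩
  · intro j x hx
    apply hroot j x
    have h1 : (Q j).map (MvPolynomial.eval a) =
        Polynomial.C (MvPolynomial.eval a G) * (P' j).map ((vh ht ha : BB t K G →ₐ[k] k) : BB t K G →+* k) := by
      ext n
      rw [Polynomial.coeff_map, Polynomial.coeff_C_mul, Polynomial.coeff_map]
      have h2 : W790.HP.Rep t G ((((P' j).coeff n : BB t K G) : K) : Ω) 1 ((Q j).coeff n) := by
        unfold W790.HP.Rep
        have h3 := congrArg (fun r => Polynomial.coeff r n) (hQ j)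
        simp only [Polynomial.coeff_map, Polynomial.coeff_C_mul] at h3
        have h4 := congrArg (fun r => Polynomial.coeff r n) (hP' j)
        simp only [Polynomial.coeff_map] at h4
        rw [pow_one]
        have h5 : (((P' j).coeff n : BB t K G) : K) = (P j).coeff n := h4
        rw [h5]
        exact h3.symm
      have h6 : (((vh ht ha : BB t K G →ₐ[k] k) : BB t K G →+* k)) ((P' j).coeff n) =
          MvPolynomial.eval a ((Q j).coeff n) / MvPolynomial.eval a G ^ 1 := vl_eq ht ha _ h2
      rw [h6, pow_one, mul_div_cancel₀ _ ha]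
    rw [h1, Polynomial.eval_mul, hx, mul_zero]

/-- Transport along an isomorphism. -/
theorem AvAll.congr {k K K' : Type} [Field k] [Field K] [Field K'] [Algebra k K] [Algebra k K']
    (e : K ≃ₐ[k] K') {q : ℕ} (P : Fin q → K[X]) (S : Finset K)
    (h : AvAll k K' (fun j => (P j).map (e : K →+* K')) (S.map e.toEquiv.toEmbedding)) :
    AvAll k K P S := by
  classical
  obtain ⟨B, φ, P', hS, hP', hr⟩ := h
  let B₁ : Subalgebra k K := B.comap (e : K →ₐ[k] K')
  let f : B₁ →ₐ[k] B :=
    { toFun := fun x => ⟨e x.1, x.2⟩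
      map_one' := Subtype.ext (map_one e)
      map_mul' := fun x y => Subtype.ext (map_mul e _ _)
      map_zero' := Subtype.ext (map_zero e)
      map_add' := fun x y => Subtype.ext (map_add e _ _)
      commutes' := fun c => Subtype.ext (e.commutes c) }
  let g : B →+* B₁ :=
    { toFun := fun x => ⟨e.symm x.1, by
        change e (e.symm x.1) ∈ B
        rw [AlgEquiv.apply_symm_apply]
        exact x.2⟩
      map_one' := Subtype.ext (map_one e.symm)
      map_mul' := fun x y => Subtype.ext (map_mul e.symm _ _)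
      map_zero' := Subtype.ext (map_zero e.symm)
      map_add' := fun x y => Subtype.ext (map_add e.symm _ _) }
  have hfg : ∀ x, f (g x) = x := fun x => Subtype.ext (e.apply_symm_apply x.1)
  refine ⟨B₁, φ.comp f, fun j => (P' j).map g, ?_, fun j => ?_, fun j x => ?_⟩
  · intro x hx
    exact hS (Finset.mem_coe.2 (Finset.mem_map_of_mem _ (Finset.mem_coe.1 hx)))
  · have h1 := congrArg (Polynomial.map (e.symm : K' →+* K)) (hP' j)
    rw [Polynomial.map_map, Polynomial.map_map] at h1
    have h2 : ((e.symm : K' →+* K).comp (e : K →+* K')) = RingHom.id K :=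
      RingHom.ext fun x => e.symm_apply_apply x
    rw [h2, Polynomial.map_id] at h1
    rw [Polynomial.map_map, ← h1]
    rfl
  · have h3 : ((φ.comp f : B₁ →ₐ[k] k) : B₁ →+* k).comp g = (φ : B →+* k) :=
      RingHom.ext fun x => by
        change φ (f (g x)) = φ x
        rw [hfg]
    rw [Polynomial.map_map, h3]
    exact hr j x

/-- The version for an abstract field. -/
theorem avAll_emb {k Ω ι K : Type} [Field k] [Field Ω] [Algebra k Ω] [Finite ι] (t : ι → Ω)
    [Field K] [Algebra k K] (f : K →ₐ[k] Ω) (hk : HilbNR k) (ht : AlgebraicIndependent k t)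
    (htop : IntermediateField.adjoin k (Set.range t) = ⊤) {q : ℕ} (P : Fin q → K[X])
    (S : Finset K) (hP : ∀ j (x : Ω), ((P j).map (f : K →+* Ω)).eval x ≠ 0) :
    AvAll k K P S := by
  classical
  let e : K ≃ₐ[k] f.fieldRange := AlgEquiv.ofInjectiveField f
  refine AvAll.congr e P S ?_
  refine avAll t f.fieldRange hk ht htop _ _ fun j x => ?_
  rw [Polynomial.map_map]
  exact hP j x

theorem hpf_of {k K : Type} [Field k] [Field K] [Algebra k K]
    (h : ∀ (q : ℕ) (P : Fin q → K[X]), (∀ (j : Fin q) (x : K), (P j).eval x ≠ 0) →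
      ∀ S : Finset K, AvAll k K P S) : HPF k K := h

end Pool.Agent.K3h17.HQ
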