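import Mathlib

/-! Hilbert 90 for `GL_N`. -/

set_option autoImplicit false

namespace Pool.Agent.K3h17.HQ

open Matrix

/-- Hilbert 90 for the general linear group. -/
theorem h90 (k F : Type) [Field k] [Field F] [Algebra k F] [FiniteDimensional k F] [IsGalois k F]
    {N : ℕ} (ρ : (F ≃ₐ[k] F) →* GL (Fin N) k) :
    ∃ A : Matrix (Fin N) (Fin N) F, IsUnit A ∧ ∀ σ : F ≃ₐ[k] F,
      A.map σ = ((ρ σ⁻¹ : GL (Fin N) k) : Matrix (Fin N) (Fin N) k).map (algebraMap k F) * A := by
  classical
  have hfin : Fintype (F ≃ₐ[k] F) := Fintype.ofFinite _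
  let r : (F ≃ₐ[k] F) → Matrix (Fin N) (Fin N) F := fun τ =>
    ((ρ τ : GL (Fin N) k) : Matrix (Fin N) (Fin N) k).map (algebraMap k F)
  have hr_mul : ∀ τ τ', r (τ * τ') = r τ * r τ' := by
    intro τ τ'
    change ((ρ (τ * τ') : GL (Fin N) k) : Matrix (Fin N) (Fin N) k).map (algebraMap k F) = _
    rw [map_mul, Units.val_mul, Matrix.map_mul]
  have hr_one : r 1 = 1 := by
    change ((ρ 1 : GL (Fin N) k) : Matrix (Fin N) (Fin N) k).map (algebraMap k F) = _
    rw [map_one, Units.val_one, Matrix.map_one _ (map_zero _) (map_one _)]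
  have hr_fix : ∀ (σ τ : F ≃ₐ[k] F) (i j : Fin N), σ (r τ i j) = r τ i j := fun σ τ i j => by
    change σ (algebraMap k F _) = algebraMap k F _
    rw [AlgEquiv.commutes]
  let v : F → Fin N → (Fin N → F) := fun b i l => ∑ τ, τ b * r τ l i
  have hv : ∀ (σ : F ≃ₐ[k] F) b i l, σ (v b i l) = ∑ m, r σ⁻¹ l m * v b i m := by
    intro σ b i l
    change σ (∑ τ, τ b * r τ l i) = ∑ m, r σ⁻¹ l m * ∑ τ, τ b * r τ m i
    rw [map_sum]
    have h1 : ∀ τ : F ≃ₐ[k] F, σ (τ b * r τ l i) = (σ * τ) b * r (σ⁻¹ * (σ * τ)) l i := by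
      intro τ
      rw [map_mul, hr_fix, inv_mul_cancel_left]
      rfl
    refine (Finset.sum_congr rfl fun τ _ => h1 τ).trans ?_
    refine (Equiv.sum_comp (Equiv.mulLeft σ) (fun τ => τ b * r (σ⁻¹ * τ) l i)).trans ?_
    simp only [hr_mul, Matrix.mul_apply, Finset.mul_sum]
    rw [Finset.sum_comm]
    refine Finset.sum_congr rfl fun m _ => Finset.sum_congr rfl fun τ _ => ?_
    ring
  let s : Set (Fin N → F) := Set.range fun p : F × Fin N => v p.1 p.2
  have hspan : Submodule.span F s = ⊤ := by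
    by_contra hne
    obtain ⟨f, hf0, hf⟩ := Submodule.exists_le_ker_of_lt_top _ (lt_top_iff_ne_top.2 hne)
    apply hf0
    have h1 : ∀ b i, ∑ τ : F ≃ₐ[k] F, τ b * f (fun l => r τ l i) = 0 := by
      intro b i
      have h2 : f (v b i) = 0 := hf (Submodule.subset_span ⟨(b, i), rfl⟩)
      rw [← h2]
      have h3 : v b i = ∑ τ : F ≃ₐ[k] F, τ b • (fun l => r τ l i) := by
        funext l
        rw [Finset.sum_apply]
        rfl
      rw [h3, map_sum]
      refine Finset.sum_congr rfl fun τ _ => ?_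
      rw [map_smul]
      rfl
    have h4 : ∀ i (τ : F ≃ₐ[k] F), f (fun l => r τ l i) = 0 := by
      intro i
      have hli := linearIndependent_monoidHom F F
      have hinj : Function.Injective (fun τ : F ≃ₐ[k] F => ((τ : F →* F))) := by
        intro τ τ' h
        exact AlgEquiv.ext fun x => DFunLike.congr_fun h x
      have hli2 := hli.comp _ hinj
      rw [Fintype.linearIndependent_iff] at hli2
      refine hli2 (fun τ => f (fun l => r τ l i)) ?_
      funext b
      rw [Finset.sum_apply]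
      refine Eq.trans ?_ (h1 b i)
      refine Finset.sum_congr rfl fun τ _ => ?_
      change f _ * τ b = _
      rw [mul_comm]
    apply LinearMap.pi_ext'
    intro i
    apply LinearMap.ext_ring
    have h5 := h4 i 1
    rw [hr_one] at h5
    change f (Pi.single i 1) = 0
    rw [← h5]
    congr 1
    funext l
    rw [Matrix.one_apply, Pi.single_apply]
  obtain ⟨b, hbs, hbspan, hbli⟩ := exists_linearIndependent F s
  rw [hspan] at hbspan
  let B : Module.Basis b F (Fin N → F) := Module.Basis.mk hbli (by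
    rw [Subtype.range_coe, hbspan])
  have hbfin : Finite b := Module.Finite.finite_basis B
  let _ : Fintype b := Fintype.ofFinite b
  have hcard : Fintype.card b = N := by
    rw [← Module.finrank_eq_card_basis B, Module.finrank_fin_fun]
  let e : Fin N ≃ b := (finCongr hcard.symm).trans (Fintype.equivFin b).symm
  have hcol : ∀ j, ∃ p : F × Fin N, v p.1 p.2 = (e j : Fin N → F) := fun j => hbs (e j).2
  choose p hp using hcol
  refine ⟨Matrix.of fun l j => (e j : Fin N → F) l, ?_, fun σ => ?_⟩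
  · rw [← Matrix.linearIndependent_cols_iff_isUnit]
    have h6 : (Matrix.of fun l j => (e j : Fin N → F) l).col = fun j => (e j : Fin N → F) := rfl
    rw [h6]
    exact hbli.comp _ e.injective
  · ext l j
    rw [Matrix.map_apply, Matrix.mul_apply]
    change σ ((e j : Fin N → F) l) = ∑ m, r σ⁻¹ l m * (e j : Fin N → F) m
    rw [← hp j]
    exact hv σ _ _ l

end Pool.Agent.K3h17.HQ
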