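import Mathlib

/-! Linear substitutions and Galois action on rational functions. -/

set_option autoImplicit false

namespace Pool.Agent.K3h17.HQ

open MvPolynomial

/-- The linear substitution. -/
noncomputable def ls {F : Type} [Field F] {N : ℕ} (A : Matrix (Fin N) (Fin N) F) :
    MvPolynomial (Fin N) F →ₐ[F] MvPolynomial (Fin N) F :=
  aeval fun i => ∑ j, C (A i j) * X j

/-- The field of rational functions. -/
abbrev FR (N : ℕ) (F : Type) [Field F] : Type := FractionRing (MvPolynomial (Fin N) F)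

section basic

variable {F F' : Type} [Field F] [Field F'] {N : ℕ}

theorem ls_X (A : Matrix (Fin N) (Fin N) F) (i : Fin N) : ls A (X i) = ∑ j, C (A i j) * X j :=
  aeval_X _ _

theorem ls_ls (A B : Matrix (Fin N) (Fin N) F) (p : MvPolynomial (Fin N) F) :
    ls B (ls A p) = ls (A * B) p := by
  have h : (ls B).comp (ls A) = ls (A * B) := by
    apply MvPolynomial.algHom_ext
    intro i
    rw [AlgHom.comp_apply, ls_X, ls_X, map_sum]
    simp only [map_mul, ls_X, Matrix.mul_apply, map_sum, Finset.sum_mul]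
    rw [Finset.sum_comm]
    refine Finset.sum_congr rfl fun j _ => ?_
    have h1 : ls B (C (A i j)) = C (A i j) := (ls B).commutes (A i j)
    rw [h1, Finset.mul_sum]
    refine Finset.sum_congr rfl fun l _ => ?_
    rw [mul_assoc]
  rw [← h]
  rfl

theorem ls_one (p : MvPolynomial (Fin N) F) : ls (1 : Matrix (Fin N) (Fin N) F) p = p := by
  have h : ls (1 : Matrix (Fin N) (Fin N) F) = AlgHom.id F _ := by
    apply MvPolynomial.algHom_ext
    intro i
    rw [ls_X, Finset.sum_eq_single i]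
    · rw [Matrix.one_apply_eq, map_one, one_mul]
      rfl
    · intro j _ hj
      rw [Matrix.one_apply_ne (Ne.symm hj), map_zero, zero_mul]
    · intro h
      exact absurd (Finset.mem_univ _) h
  rw [h]
  rfl

theorem ls_inj {A : Matrix (Fin N) (Fin N) F} (hA : IsUnit A) :
    Function.Injective (ls A : MvPolynomial (Fin N) F →+* MvPolynomial (Fin N) F) := by
  obtain ⟨B, hAB, hBA⟩ := isUnit_iff_exists.1 hA
  intro p q h
  have h1 := congrArg (ls B) (show ls A p = ls A q from h)
  rwa [ls_ls, ls_ls, hAB, ls_one, ls_one] at h1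

theorem map_ls (f : F →+* F') (A : Matrix (Fin N) (Fin N) F) (p : MvPolynomial (Fin N) F) :
    MvPolynomial.map f (ls A p) = ls (A.map f) (MvPolynomial.map f p) := by
  have h : (MvPolynomial.map f).comp (ls A : MvPolynomial (Fin N) F →+* MvPolynomial (Fin N) F) =
      (ls (A.map f) : MvPolynomial (Fin N) F' →+* MvPolynomial (Fin N) F').comp
        (MvPolynomial.map f) := by
    apply MvPolynomial.ringHom_ext
    · intro r
      rw [RingHom.comp_apply, RingHom.comp_apply, map_C]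
      have h1 : (ls A : MvPolynomial (Fin N) F →+* MvPolynomial (Fin N) F) (C r) = C r :=
        (ls A).commutes r
      have h2 : (ls (A.map f) : MvPolynomial (Fin N) F' →+* MvPolynomial (Fin N) F') (C (f r)) =
        C (f r) := (ls (A.map f)).commutes (f r)
      rw [h1, h2, map_C]
    · intro i
      rw [RingHom.comp_apply, RingHom.comp_apply, map_X]
      have h1 : (ls A : MvPolynomial (Fin N) F →+* MvPolynomial (Fin N) F) (X i) =
        ∑ j, C (A i j) * X j := ls_X A i
      have h2 : (ls (A.map f) : MvPolynomial (Fin N) F' →+* MvPolynomial (Fin N) F') (X i) =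
        ∑ j, C ((A.map f) i j) * X j := ls_X (A.map f) i
      rw [h1, h2, map_sum]
      simp only [map_mul, map_C, map_X, Matrix.map_apply]
  exact congrArg (fun g : MvPolynomial (Fin N) F →+* MvPolynomial (Fin N) F' => g p) h

/-- The substitution in rational functions. -/
noncomputable def U {A : Matrix (Fin N) (Fin N) F} (hA : IsUnit A) : FR N F →+* FR N F :=
  IsFractionRing.map (ls_inj hA)

/-- The change of coefficients. -/
noncomputable def Mf (N : ℕ) (f : F →+* F') : FR N F →+* FR N F' :=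
  IsFractionRing.map (A := MvPolynomial (Fin N) F) (B := MvPolynomial (Fin N) F')
    (j := MvPolynomial.map f) (MvPolynomial.map_injective f f.injective)

theorem U_alg {A : Matrix (Fin N) (Fin N) F} (hA : IsUnit A) (p : MvPolynomial (Fin N) F) :
    U hA (algebraMap _ (FR N F) p) = algebraMap _ (FR N F) (ls A p) := by
  delta U IsFractionRing.map
  exact IsLocalization.map_eq _ p

theorem Mf_alg (f : F →+* F') (p : MvPolynomial (Fin N) F) :
    Mf N f (algebraMap _ (FR N F) p) = algebraMap _ (FR N F') (MvPolynomial.map f p) := by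
  delta Mf IsFractionRing.map
  exact IsLocalization.map_eq _ p

theorem FR_ext {R : Type} [CommRing R] {f g : FR N F →+* R}
    (h : ∀ p : MvPolynomial (Fin N) F, f (algebraMap _ _ p) = g (algebraMap _ _ p))
    (z : FR N F) : f z = g z := by
  have h1 : f = g := by
    apply IsLocalization.ringHom_ext (nonZeroDivisors (MvPolynomial (Fin N) F))
    exact RingHom.ext h
  rw [h1]

theorem U_U {A B : Matrix (Fin N) (Fin N) F} (hA : IsUnit A) (hB : IsUnit B)
    (hAB : IsUnit (A * B)) (z : FR N F) : U hB (U hA z) = U hAB z := by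
  refine FR_ext (f := (U hB).comp (U hA)) (g := U hAB) (fun p => ?_) z
  rw [RingHom.comp_apply, U_alg, U_alg, U_alg, ls_ls]

theorem U_congr {A B : Matrix (Fin N) (Fin N) F} (hA : IsUnit A) (h : A = B) (hB : IsUnit B)
    (z : FR N F) : U hA z = U hB z := by
  subst h
  rfl

theorem U_one (h : IsUnit (1 : Matrix (Fin N) (Fin N) F)) (z : FR N F) : U h z = z := by
  refine FR_ext (f := U h) (g := RingHom.id _) (fun p => ?_) z
  rw [U_alg, ls_one]
  rfl

theorem Mf_U (f : F →+* F') {A : Matrix (Fin N) (Fin N) F} (hA : IsUnit A)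
    (hA' : IsUnit (A.map f)) (z : FR N F) : Mf N f (U hA z) = U hA' (Mf N f z) := by
  refine FR_ext (f := (Mf N f).comp (U hA)) (g := (U hA').comp (Mf N f)) (fun p => ?_) z
  rw [RingHom.comp_apply, RingHom.comp_apply, U_alg, Mf_alg, Mf_alg, U_alg, map_ls]

theorem Mf_Mf {F'' : Type} [Field F''] (f : F →+* F') (g : F' →+* F'') (z : FR N F) :
    Mf N g (Mf N f z) = Mf N (g.comp f) z := by
  refine FR_ext (f := (Mf N g).comp (Mf N f)) (g := Mf N (g.comp f)) (fun p => ?_) z
  rw [RingHom.comp_apply, Mf_alg, Mf_alg, Mf_alg, MvPolynomial.map_map]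

theorem Mf_congr {f g : F →+* F'} (h : f = g) (z : FR N F) : Mf N f z = Mf N g z := by
  rw [h]

theorem isUnit_map (f : F →+* F') {A : Matrix (Fin N) (Fin N) F} (hA : IsUnit A) :
    IsUnit (A.map f) := by
  have h1 := hA.map f.mapMatrix
  exact h1

end basic

section descent

variable {k Fb : Type} [Field k] [Field Fb] [Algebra k Fb] {N : ℕ}

/-- Polynomials with fixed coefficients. -/
theorem poly_descent (hfix : ∀ a : Fb, (∀ σ : Fb ≃ₐ[k] Fb, σ a = a) → a ∈ Set.range (algebraMap k Fb))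
    (p : MvPolynomial (Fin N) Fb)
    (hp : ∀ σ : Fb ≃ₐ[k] Fb, MvPolynomial.map (σ : Fb →+* Fb) p = p) :
    ∃ p₀ : MvPolynomial (Fin N) k, MvPolynomial.map (algebraMap k Fb) p₀ = p := by
  have h1 : p ∈ Set.range (MvPolynomial.map (algebraMap k Fb)) := by
    rw [MvPolynomial.mem_range_map_iff_coeffs_subset]
    intro a ha
    obtain ⟨m, -, hm⟩ := MvPolynomial.mem_coeffs_iff.1 ha
    apply hfix
    intro σ
    have h2 := congrArg (fun r => MvPolynomial.coeff m r) (hp σ)
    simp only [MvPolynomial.coeff_map] at h2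
    rw [hm]
    exact h2
  exact h1

theorem rel_dvd {p q : MvPolynomial (Fin N) Fb} (hpq : IsRelPrime p q) (f : Fb →+* Fb)
    (h : MvPolynomial.map f p * q = p * MvPolynomial.map f q) : q ∣ MvPolynomial.map f q :=
  hpq.symm.dvd_of_dvd_mul_left (by rw [← h]; exact dvd_mul_left _ _)

/-- Rational functions fixed by the Galois group. -/
theorem descent (hfix : ∀ a : Fb, (∀ σ : Fb ≃ₐ[k] Fb, σ a = a) → a ∈ Set.range (algebraMap k Fb))
    (z : FR N Fb) (hz : ∀ σ : Fb ≃ₐ[k] Fb, Mf N (σ : Fb →+* Fb) z = z) :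
    ∃ z₀ : FR N k, Mf N (algebraMap k Fb) z₀ = z := by
  classical
  set p := IsFractionRing.num (MvPolynomial (Fin N) Fb) z with hp
  set q : MvPolynomial (Fin N) Fb :=
    ((IsFractionRing.den (MvPolynomial (Fin N) Fb) z : nonZeroDivisors _) :
      MvPolynomial (Fin N) Fb) with hq
  have hrel : IsRelPrime p q := IsFractionRing.num_den_reduced _ z
  have hq0 : q ≠ 0 := nonZeroDivisors.ne_zero (IsFractionRing.den (MvPolynomial (Fin N) Fb) z).2
  have hinj : Function.Injective (algebraMap (MvPolynomial (Fin N) Fb) (FR N Fb)) :=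
    IsFractionRing.injective _ _
  have hz1 : z * algebraMap _ _ q = algebraMap _ _ p := by
    rw [IsFractionRing.num_mul_den_eq_num_iff_eq]
  have hcross : ∀ σ : Fb ≃ₐ[k] Fb, MvPolynomial.map (σ : Fb →+* Fb) p * q =
      p * MvPolynomial.map (σ : Fb →+* Fb) q := by
    intro σ
    apply hinj
    have h1 := congrArg (Mf N (σ : Fb →+* Fb)) hz1
    rw [map_mul, hz, Mf_alg, Mf_alg] at h1
    rw [map_mul, map_mul, ← h1, ← hz1]
    ring
  have hdvd : ∀ σ : Fb ≃ₐ[k] Fb, q ∣ MvPolynomial.map (σ : Fb →+* Fb) q := fun σ =>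
    rel_dvd hrel _ (hcross σ)
  obtain ⟨m, hm⟩ : ∃ m, q.coeff m ≠ 0 := MvPolynomial.ne_zero_iff.1 hq0
  set c := q.coeff m with hc
  have hassoc : ∀ σ : Fb ≃ₐ[k] Fb, ∃ u : Fb, MvPolynomial.map (σ : Fb →+* Fb) q = C u * q := by
    intro σ
    obtain ⟨r, hr⟩ := hdvd σ
    obtain ⟨s, hs⟩ := hdvd σ.symm
    have h1 : MvPolynomial.map (σ : Fb →+* Fb) (MvPolynomial.map (σ.symm : Fb →+* Fb) q) = q := by
      rw [MvPolynomial.map_map]
      have h2 : (σ : Fb →+* Fb).comp (σ.symm : Fb →+* Fb) = RingHom.id Fb :=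
        RingHom.ext fun x => σ.apply_symm_apply x
      rw [h2, MvPolynomial.map_id]
    rw [hs, map_mul, hr] at h1
    have h3 : r * MvPolynomial.map (σ : Fb →+* Fb) s = 1 := by
      apply mul_left_cancel₀ hq0
      rw [mul_one, ← mul_assoc]
      exact h1
    have h4 : IsUnit r := IsUnit.of_mul_eq_one _ h3
    obtain ⟨u, -, hu⟩ := MvPolynomial.isUnit_iff_eq_C_of_isReduced.1 h4
    exact ⟨u, by rw [hr, hu, mul_comm]⟩
  set q₀ := C c⁻¹ * q with hq₀
  have hq₀m : q₀.coeff m = 1 := by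
    rw [hq₀, MvPolynomial.coeff_C_mul, inv_mul_cancel₀ hm]
  have hfq : ∀ σ : Fb ≃ₐ[k] Fb, MvPolynomial.map (σ : Fb →+* Fb) q₀ = q₀ := by
    intro σ
    obtain ⟨u, hu⟩ := hassoc σ
    have h1 : MvPolynomial.map (σ : Fb →+* Fb) q₀ = C (σ c⁻¹ * u * c) * q₀ := by
      rw [hq₀, map_mul, map_C, hu]
      rw [← mul_assoc, ← mul_assoc, ← C_mul, ← C_mul]
      congr 2
      change σ c⁻¹ * u = σ c⁻¹ * u * c * c⁻¹
      rw [mul_assoc, mul_inv_cancel₀ hm, mul_one]
    have h2 := congrArg (fun r => MvPolynomial.coeff m r) h1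
    simp only [MvPolynomial.coeff_map, MvPolynomial.coeff_C_mul, hq₀m, map_one, mul_one] at h2
    rw [h1, ← h2, C_1, one_mul]
  have hq₀0 : q₀ ≠ 0 := fun h => one_ne_zero (hq₀m.symm.trans (by rw [h, MvPolynomial.coeff_zero]))
  set p₀ := C c⁻¹ * p with hp₀
  have hz2 : z * algebraMap _ _ q₀ = algebraMap _ _ p₀ := by
    rw [hq₀, hp₀, map_mul, map_mul, ← hz1]
    ring
  have hfp : ∀ σ : Fb ≃ₐ[k] Fb, MvPolynomial.map (σ : Fb →+* Fb) p₀ = p₀ := by
    intro σ
    apply hinj
    rw [← Mf_alg, ← hz2, map_mul, hz, Mf_alg, hfq]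
  obtain ⟨q₁, hq₁⟩ := poly_descent hfix q₀ hfq
  obtain ⟨p₁, hp₁⟩ := poly_descent hfix p₀ hfp
  have hq₁0 : q₁ ≠ 0 := by
    rintro rfl
    rw [map_zero] at hq₁
    exact hq₀0 hq₁.symm
  refine ⟨algebraMap _ _ p₁ / algebraMap _ _ q₁, ?_⟩
  rw [map_div₀, Mf_alg, Mf_alg, hq₁, hp₁, ← hz2, mul_div_cancel_right₀]
  exact fun h => hq₀0 (hinj (by rw [h, map_zero]))

/-- The field of definition of a rational function. -/
theorem exists_fin [Algebra.IsAlgebraic k Fb] (S : Finset (FR N Fb)) :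
    ∃ E : IntermediateField k Fb, FiniteDimensional k E ∧
      ∀ σ : Fb ≃ₐ[k] Fb, (∀ x ∈ E, σ x = x) → ∀ z ∈ S, Mf N (σ : Fb →+* Fb) z = z := by
  classical
  have key : ∀ p : MvPolynomial (Fin N) Fb, ∃ T : Finset Fb, ∀ σ : Fb →+* Fb,
      (∀ x ∈ T, σ x = x) → MvPolynomial.map σ p = p := by
    intro p
    refine ⟨p.support.image fun m => p.coeff m, fun σ hσ => ?_⟩
    ext m
    rw [MvPolynomial.coeff_map]
    by_cases h : m ∈ p.support
    · exact hσ _ (Finset.mem_image_of_mem _ h)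
    · rw [MvPolynomial.notMem_support_iff.1 h, map_zero]
  have key2 : ∀ z : FR N Fb, ∃ T : Finset Fb, ∀ σ : Fb →+* Fb,
      (∀ x ∈ T, σ x = x) → Mf N σ z = z := by
    intro z
    obtain ⟨p, q, hq, hz⟩ := IsFractionRing.div_surjective (A := MvPolynomial (Fin N) Fb) z
    obtain ⟨T₁, h1⟩ := key p
    obtain ⟨T₂, h2⟩ := key q
    refine ⟨T₁ ∪ T₂, fun σ hσ => ?_⟩
    rw [← hz, map_div₀, Mf_alg, Mf_alg, h1 σ fun x hx => hσ x (Finset.mem_union_left _ hx),
      h2 σ fun x hx => hσ x (Finset.mem_union_right _ hx)]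
  choose T hT using key2
  let T' : Finset Fb := S.biUnion T
  refine ⟨IntermediateField.adjoin k (T' : Set Fb), ?_, fun σ hσ z hz => ?_⟩
  · exact IntermediateField.finiteDimensional_adjoin fun x _ =>
      (Algebra.IsAlgebraic.isAlgebraic x).isIntegral
  · refine hT z _ fun x hx => hσ x (IntermediateField.subset_adjoin k _ ?_)
    exact Finset.mem_coe.2 (Finset.mem_biUnion.2 ⟨z, hz, hx⟩)

end descent

end Pool.Agent.K3h17.HQ
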