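import Mathlib
import Pool.Agent.K3h17.HQ.Av
import Pool.Agent.K3h17.HQ.Sub
import Pool.Agent.K3h17.HQ.H90

/-! The field of invariants of a linear representation and its twisted embeddings. -/

set_option autoImplicit false

namespace Pool.Agent.K3h17.HQ

open MvPolynomial W560.HP

section inv

variable {k : Type} [Field k] {H : Type} [Group H] {N : ℕ} (ρ : H →* GL (Fin N) k)

/-- The action on rational functions. -/
noncomputable def uh (h : H) : FR N k →+* FR N k :=
  U (Units.isUnit (ρ h))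

/-- The field of invariants. -/
noncomputable def Inv : IntermediateField k (FR N k) where
  carrier := {z | ∀ h, uh ρ h z = z}
  mul_mem' := by
    intro a b ha hb h
    rw [map_mul, ha, hb]
  one_mem' := fun h => map_one _
  add_mem' := by
    intro a b ha hb h
    rw [map_add, ha, hb]
  zero_mem' := fun h => map_zero _
  algebraMap_mem' := by
    intro r h
    have h1 : algebraMap k (FR N k) r = algebraMap (MvPolynomial (Fin N) k) (FR N k) (C r) := by
      rw [IsScalarTower.algebraMap_apply k (MvPolynomial (Fin N) k) (FR N k)]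
      rfl
    have h2 : ls ((ρ h : GL (Fin N) k) : Matrix (Fin N) (Fin N) k) (C r) = C r :=
      (ls _).commutes r
    rw [h1]
    change U _ _ = _
    rw [U_alg, h2]
  inv_mem' := by
    intro a ha h
    rw [map_inv₀, ha]

theorem mem_Inv (z : FR N k) : z ∈ Inv ρ ↔ ∀ h, uh ρ h z = z := Iff.rfl

end inv

section tw

variable {k Fb : Type} [Field k] [Field Fb] [Algebra k Fb] {H : Type} [Group H] {N : ℕ}
  (ρ : H →* GL (Fin N) k)

/-- The representation over the algebraic closure. -/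
def rb (Fb : Type) [Field Fb] [Algebra k Fb] (h : H) : Matrix (Fin N) (Fin N) Fb :=
  ((ρ h : GL (Fin N) k) : Matrix (Fin N) (Fin N) k).map (algebraMap k Fb)

theorem rb_unit (h : H) : IsUnit (rb ρ Fb h) := isUnit_map (algebraMap k Fb) (Units.isUnit (ρ h))

theorem rb_mul (h h' : H) : rb ρ Fb (h * h') = rb ρ Fb h * rb ρ Fb h' := by
  unfold rb
  rw [map_mul, Units.val_mul, Matrix.map_mul]

theorem rb_one : rb ρ Fb (1 : H) = 1 := by
  unfold rb
  rw [map_one, Units.val_one, Matrix.map_one _ (map_zero _) (map_one _)]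

/-- The inclusion of the rational functions. -/
noncomputable abbrev inc (N : ℕ) (k Fb : Type) [Field k] [Field Fb] [Algebra k Fb] :
    FR N k →+* FR N Fb := Mf N (algebraMap k Fb)

theorem inc_U (h : H) (z : FR N k) : inc N k Fb (uh ρ h z) = U (rb_unit ρ h) (inc N k Fb z) :=
  Mf_U _ _ _ z

theorem Mf_inc (σ : Fb ≃ₐ[k] Fb) (z : FR N k) :
    Mf N (σ : Fb →+* Fb) (inc N k Fb z) = inc N k Fb z := by
  rw [Mf_Mf]
  refine Mf_congr ?_ z
  exact RingHom.ext fun x => σ.commutes x

variable {A : Matrix (Fin N) (Fin N) Fb} (hA : IsUnit A) (η : (Fb ≃ₐ[k] Fb) → H)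
  (hη : ∀ σ : Fb ≃ₐ[k] Fb, A.map (σ : Fb →+* Fb) = rb ρ Fb (η σ)⁻¹ * A)

include hη in
theorem Mf_tw (z : FR N k) (hz : z ∈ Inv ρ) (σ : Fb ≃ₐ[k] Fb) :
    Mf N (σ : Fb →+* Fb) (U hA (inc N k Fb z)) = U hA (inc N k Fb z) := by
  rw [Mf_U (σ : Fb →+* Fb) hA (isUnit_map _ hA), Mf_inc]
  have h1 : IsUnit (rb ρ Fb (η σ)⁻¹ * A) := (rb_unit ρ _).mul hA
  rw [U_congr _ (hη σ) h1, ← U_U (rb_unit ρ _) hA h1, ← inc_U, hz]

include hη in
/-- The twisted embedding. -/
theorem exists_tw (hfix : ∀ a : Fb, (∀ σ : Fb ≃ₐ[k] Fb, σ a = a) →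
    a ∈ Set.range (algebraMap k Fb)) :
    ∃ j : Inv ρ →ₐ[k] FR N k, ∀ z : Inv ρ, inc N k Fb (j z) = U hA (inc N k Fb (z : FR N k)) := by
  have h1 : ∀ z : Inv ρ, ∃ z₀ : FR N k, inc N k Fb z₀ = U hA (inc N k Fb (z : FR N k)) :=
    fun z => descent hfix _ fun σ => Mf_tw ρ hA η hη z z.2 σ
  choose j hj using h1
  have hinj : Function.Injective (inc N k Fb) := (inc N k Fb).injective
  refine ⟨{ toFun := j, map_one' := ?_, map_mul' := ?_, map_zero' := ?_, map_add' := ?_,
            commutes' := ?_ }, hj⟩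
  · apply hinj
    rw [hj]
    simp
  · intro x y
    apply hinj
    rw [hj, map_mul (inc N k Fb), hj, hj]
    simp
  · apply hinj
    rw [hj]
    simp
  · intro x y
    apply hinj
    rw [hj, map_add (inc N k Fb), hj, hj]
    simp
  · intro r
    apply hinj
    rw [hj]
    have h1 : (algebraMap k (FR N k) r) =
        algebraMap (MvPolynomial (Fin N) k) (FR N k) (C r) := by
      rw [IsScalarTower.algebraMap_apply k (MvPolynomial (Fin N) k) (FR N k)]
      rfl
    have h2 : ((algebraMap k (Inv ρ) r : Inv ρ) : FR N k) = algebraMap k (FR N k) r := rfl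
    have h3 : ls A (C (algebraMap k Fb r)) = C (algebraMap k Fb r) := (ls A).commutes _
    rw [h2, h1, Mf_alg, MvPolynomial.map_C, U_alg, h3]

include hη in
theorem Mf_inv (y : FR N k) {A' : Matrix (Fin N) (Fin N) Fb} (hA' : IsUnit A') (hAA : A' * A = 1)
    (hAA' : A * A' = 1) (σ : Fb ≃ₐ[k] Fb) :
    Mf N (σ : Fb →+* Fb) (U hA' (inc N k Fb y)) =
      U (rb_unit ρ (η σ)) (U hA' (inc N k Fb y)) := by
  have h1 : A'.map (σ : Fb →+* Fb) = A' * rb ρ Fb (η σ) := by
    have h2 : A'.map (σ : Fb →+* Fb) * A.map (σ : Fb →+* Fb) = 1 := by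
      rw [← Matrix.map_mul, hAA, Matrix.map_one _ (map_zero _) (map_one _)]
    have h3 : A.map (σ : Fb →+* Fb) * (A' * rb ρ Fb (η σ)) = 1 := by
      rw [hη, Matrix.mul_assoc, ← Matrix.mul_assoc A A', hAA', Matrix.one_mul, ← rb_mul,
        inv_mul_cancel, rb_one]
    calc A'.map (σ : Fb →+* Fb) = A'.map (σ : Fb →+* Fb) *
          (A.map (σ : Fb →+* Fb) * (A' * rb ρ Fb (η σ))) := by rw [h3, Matrix.mul_one]
      _ = A' * rb ρ Fb (η σ) := by rw [← Matrix.mul_assoc, h2, Matrix.one_mul]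
  rw [Mf_U (σ : Fb →+* Fb) hA' (isUnit_map _ hA'), Mf_inc]
  have h4 : IsUnit (A' * rb ρ Fb (η σ)) := hA'.mul (rb_unit ρ _)
  rw [U_congr _ h1 h4, ← U_U hA' (rb_unit ρ _) h4]

end tw

section avoid

variable {k Fb : Type} [Field k] [Field Fb] [Algebra k Fb] [Algebra.IsAlgebraic k Fb]
  {H : Type} [Group H] {N : ℕ} (ρ : H →* GL (Fin N) k)

/-- `H` occurs in the algebraic closure, disjoint from `E`, with a matrix of periods. -/
def Occ (Fb : Type) [Field Fb] [Algebra k Fb] (E : IntermediateField k Fb) : Prop :=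
  ∃ (η : (Fb ≃ₐ[k] Fb) → H) (A : Matrix (Fin N) (Fin N) Fb), IsUnit A ∧
    (∀ σ : Fb ≃ₐ[k] Fb, A.map (σ : Fb →+* Fb) = rb ρ Fb (η σ)⁻¹ * A) ∧
    ∀ h : H, ∃ σ : Fb ≃ₐ[k] Fb, (∀ x ∈ E, σ x = x) ∧ η σ = h

/-- The Hilbert property of the field of invariants. -/
theorem hpf_inv (hk : HilbNR k) (hfix : ∀ a : Fb, (∀ σ : Fb ≃ₐ[k] Fb, σ a = a) →
    a ∈ Set.range (algebraMap k Fb))
    (hocc : ∀ E : IntermediateField k Fb, FiniteDimensional k E → Occ ρ Fb E) :
    HPF k (Inv ρ) := by
  classical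
  refine hpf_of fun q P hP S => ?_
  let ic : Inv ρ →+* FR N Fb := (inc N k Fb).comp (algebraMap (Inv ρ) (FR N k))
  have hP0 : ∀ j, (P j).map ic ≠ 0 := by
    intro j h
    have h1 : P j = 0 := (Polynomial.map_eq_zero ic).1 h
    exact hP j 0 (by rw [h1, Polynomial.eval_zero])
  let T : Finset (FR N Fb) := Finset.univ.biUnion fun j => ((P j).map ic).roots.toFinset
  obtain ⟨E, hE, hET⟩ := exists_fin (k := k) T
  obtain ⟨η, A, hA, hη, hsur⟩ := hocc E hE
  obtain ⟨A', hAA', hA'A⟩ := isUnit_iff_exists.1 hA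
  have hA' : IsUnit A' := isUnit_iff_exists.2 ⟨A, hA'A, hAA'⟩
  obtain ⟨j, hj⟩ := exists_tw ρ hA η hη hfix
  refine avAll_emb (t := fun i => algebraMap (MvPolynomial (Fin N) k) (FR N k) (X i)) j hk ?_ ?_ P S
    fun i y hy => ?_
  · rw [algebraicIndependent_iff_injective_aeval]
    have h1 : (aeval (fun i => algebraMap (MvPolynomial (Fin N) k) (FR N k) (X i)) :
        MvPolynomial (Fin N) k →ₐ[k] FR N k) =
        IsScalarTower.toAlgHom k (MvPolynomial (Fin N) k) (FR N k) := by
      apply MvPolynomial.algHom_ext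
      intro i
      rw [aeval_X]
      rfl
    rw [h1]
    exact IsFractionRing.injective (MvPolynomial (Fin N) k) (FR N k)
  · rw [eq_top_iff]
    intro z _
    obtain ⟨p, q, hq, rfl⟩ := IsFractionRing.div_surjective (A := MvPolynomial (Fin N) k) z
    have h1 : ∀ p : MvPolynomial (Fin N) k, algebraMap (MvPolynomial (Fin N) k) (FR N k) p ∈
        IntermediateField.adjoin k
          (Set.range fun i => algebraMap (MvPolynomial (Fin N) k) (FR N k) (X i)) := by
      intro p
      induction p using MvPolynomial.induction_on with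
      | C a =>
        have h2 : algebraMap (MvPolynomial (Fin N) k) (FR N k) (C a) = algebraMap k (FR N k) a := by
          rw [IsScalarTower.algebraMap_apply k (MvPolynomial (Fin N) k) (FR N k)]
          rfl
        rw [h2]
        exact IntermediateField.algebraMap_mem _ _
      | add p q hp hq =>
        rw [map_add]
        exact add_mem hp hq
      | mul_X p i hp =>
        rw [map_mul]
        exact mul_mem hp (IntermediateField.subset_adjoin k _ ⟨i, rfl⟩)
    exact div_mem (h1 p) (h1 q)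
  · -- a root in the rational functions
    set x := U hA' (inc N k Fb y) with hx
    have hUx : U hA x = inc N k Fb y := by
      have h2 : IsUnit (A' * A) := hA'.mul hA
      rw [hx, U_U hA' hA h2, U_congr h2 hA'A isUnit_one, U_one]
    have hroot : ((P i).map ic).eval x = 0 := by
      apply (U hA).injective
      rw [map_zero, ← Polynomial.eval₂_at_apply (p := (P i).map ic) (U hA) x,
        Polynomial.eval₂_map, hUx]
      have h3 : (U hA).comp ic = (inc N k Fb).comp (j : Inv ρ →+* FR N k) :=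
        RingHom.ext fun z => (hj z).symm
      rw [h3, ← Polynomial.eval₂_map, Polynomial.eval₂_at_apply]
      have h4 : ((P i).map (j : Inv ρ →+* FR N k)).eval y = 0 := hy
      rw [h4, map_zero]
    have hxT : x ∈ T := by
      refine Finset.mem_biUnion.2 ⟨i, Finset.mem_univ _, ?_⟩
      rw [Multiset.mem_toFinset, Polynomial.mem_roots (hP0 i)]
      exact hroot
    have hσ : ∀ σ : Fb ≃ₐ[k] Fb, Mf N (σ : Fb →+* Fb) x = U (rb_unit ρ (η σ)) x := fun σ =>
      Mf_inv ρ η hη y hA' hA'A hAA' σ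
    have hh : ∀ h : H, U (rb_unit ρ h) x = x := by
      intro h
      obtain ⟨σ, h1, h2⟩ := hsur h
      have h3 := hET σ h1 x hxT
      rw [hσ] at h3
      subst h2
      exact h3
    obtain ⟨x₀, hx₀⟩ := descent hfix x fun σ => (hσ σ).trans (hh _)
    have hx₀I : x₀ ∈ Inv ρ := by
      intro h
      apply (inc N k Fb).injective
      rw [inc_U, hx₀, hh]
    refine hP i ⟨x₀, hx₀I⟩ ?_
    apply ic.injective
    rw [map_zero, ← Polynomial.eval₂_at_apply, ← Polynomial.eval_map]
    have h5 : ic ⟨x₀, hx₀I⟩ = x := hx₀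
    rw [h5]
    exact hroot

end avoid

end Pool.Agent.K3h17.HQ
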