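import Mathlib
import Pool.Agent.K3h17.HQ.Inv
import Pool.Agent.TH59.WX.UF
import Pool.Agent.TH444.TW.Cyc
import Pool.Agent.W583.HP.FG
import Pool.Agent.W405.HP.Hit

/-! Groups which occur over the field `k` disjointly from every finite extension. -/

set_option autoImplicit false

namespace Pool.Agent.K3h17.HQ

open Pool.Agent.H391R2.T4 (RegSol HilbField)
open W560.HP

/-- `H` occurs over `k` independently of every finite Galois extension. -/
def Free (k H : Type) [Field k] [Group H] : Prop :=
  ∀ (L : Type) [Field L] [Algebra k L] [FiniteDimensional k L] [IsGalois k L],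
    ∃ (F : Type) (_ : Field F) (_ : Algebra k F) (_ : Algebra L F) (_ : IsScalarTower k L F)
      (_ : FiniteDimensional k F) (_ : IsGalois k F) (γ : (F ≃ₐ[k] F) ≃* H × (L ≃ₐ[k] L)),
      ∀ σ : F ≃ₐ[k] F, (γ σ).2 = σ.restrictNormal L

/-- `A` is the Galois group of a finite Galois extension of `k`. -/
def GalGp (k A : Type) [Field k] [Group A] : Prop :=
  ∃ (M : Type) (_ : Field M) (_ : Algebra k M), FiniteDimensional k M ∧ IsGalois k M ∧
    Nonempty ((M ≃ₐ[k] M) ≃* A)

theorem free_of_reg {k H : Type} [Field k] [Group H] [Finite H] (hk : HilbField k)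
    (h : RegSol k k H 1) : Free k H := by
  intro L _ _ _ _
  let φ : (L ≃ₐ[k] L) →* MulAut H := 1
  have h1 := Pool.Agent.TH444.TW.reg_prod (K := k) (L := L) φ (fun g => rfl) h
  have hfX : Finite (H ⋊[φ] (L ≃ₐ[k] L)) := Finite.of_equiv _ SemidirectProduct.equivProd.symm
  obtain ⟨F, i1, i2, i3, i4, i5, i6, γ, hγ⟩ := Pool.Agent.TH59.WX.hil_of_reg k L _ hk _ h1
  let e : (H ⋊[φ] (L ≃ₐ[k] L)) ≃* H × (L ≃ₐ[k] L) :=
    { toFun := fun x => (x.left, x.right)
      invFun := fun x => ⟨x.1, x.2⟩
      left_inv := fun x => rfl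
      right_inv := fun x => rfl
      map_mul' := fun x y => rfl }
  exact ⟨F, i1, i2, i3, i4, i5, i6, γ.trans e, hγ⟩

theorem occ_of_free (k : Type) [Field k] [CharZero k] (H : Type) [Group H]
    (h : Free k H) {N : ℕ} (ρ : H →* GL (Fin N) k)
    (E : IntermediateField k (AlgebraicClosure k)) (hE : FiniteDimensional k E) :
    Occ ρ (AlgebraicClosure k) E := by
  classical
  let Fb := AlgebraicClosure k
  let L : IntermediateField k Fb := IntermediateField.normalClosure k E Fb
  have hLfin : FiniteDimensional k L := normalClosure.is_finiteDimensional k E Fb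
  have hLn : Normal k L := normalClosure.normal k E Fb
  have hLg : IsGalois k L := ⟨⟩
  have hEL : E ≤ L := IntermediateField.le_normalClosure E
  obtain ⟨F, i1, i2, i3, i4, i5, i6, γ, hγ⟩ := h L
  have hfLF : FiniteDimensional L F := Module.Finite.of_restrictScalars_finite k L F
  have haLF : Algebra.IsAlgebraic L F := Algebra.IsAlgebraic.of_finite L F
  let i : F →ₐ[L] Fb := IsAlgClosed.lift
  let _ : Algebra F Fb := i.toRingHom.toAlgebra
  have hT1 : IsScalarTower L F Fb := IsScalarTower.of_algebraMap_eq fun x => (i.commutes x).symm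
  have hT2 : IsScalarTower k F Fb := IsScalarTower.of_algebraMap_eq fun x => by
    rw [IsScalarTower.algebraMap_apply k L F, ← IsScalarTower.algebraMap_apply L F Fb,
      ← IsScalarTower.algebraMap_apply k L Fb]
  have hnF : Normal k F := inferInstance
  let lf : (F ≃ₐ[k] F) →* H := (MonoidHom.fst H (L ≃ₐ[k] L)).comp γ.toMonoidHom
  obtain ⟨A₀, hA₀, hA₀'⟩ := h90 k F (ρ.comp lf)
  have hcomm : ∀ (σ : Fb ≃ₐ[k] Fb) (x : F), σ (algebraMap F Fb x) =
      algebraMap F Fb (σ.restrictNormal F x) := fun σ x =>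
    (AlgEquiv.restrictNormal_commutes σ F x).symm
  refine ⟨fun σ => lf (σ.restrictNormal F), A₀.map (algebraMap F Fb), isUnit_map _ hA₀,
    fun σ => ?_, fun h => ?_⟩
  · have e1 : (A₀.map (algebraMap F Fb)).map (σ : Fb →+* Fb) =
        (A₀.map (σ.restrictNormal F)).map (algebraMap F Fb) := by
      ext a b
      exact hcomm σ _
    rw [e1, hA₀', Matrix.map_mul]
    congr 1
    change (((ρ (lf (σ.restrictNormal F)⁻¹) : GL (Fin N) k) :
      Matrix (Fin N) (Fin N) k).map (algebraMap k F)).map (algebraMap F Fb) = _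
    rw [map_inv lf]
    ext a b
    change algebraMap F Fb (algebraMap k F _) = algebraMap k Fb _
    rw [← IsScalarTower.algebraMap_apply k F Fb]
  · obtain ⟨σ, hσ⟩ := AlgEquiv.restrictNormalHom_surjective (F := k) (K₁ := F) Fb (γ.symm (h, 1))
    have hσ' : σ.restrictNormal F = γ.symm (h, 1) := hσ
    refine ⟨σ, fun x hx => ?_, ?_⟩
    · have h2 := hγ (γ.symm (h, 1))
      rw [MulEquiv.apply_symm_apply] at h2
      have h3 : (γ.symm (h, 1)).restrictNormal L = 1 := h2.symm
      have h4 : σ (algebraMap L Fb ⟨x, hEL hx⟩) = algebraMap L Fb ⟨x, hEL hx⟩ := by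
        rw [IsScalarTower.algebraMap_apply L F Fb, hcomm, hσ']
        congr 1
        rw [← AlgEquiv.restrictNormal_commutes (γ.symm (h, 1)) L, h3]
        rfl
      exact h4
    · change lf (σ.restrictNormal F) = h
      rw [hσ']
      change (γ (γ.symm (h, 1))).1 = h
      rw [MulEquiv.apply_symm_apply]

/-- The Hilbert property of the fields of invariants. -/
theorem hpf_free (k : Type) [Field k] [CharZero k]
    (hk : ∃ S : Finset k, IntermediateField.adjoin ℚ (S : Set k) = ⊤) (H : Type) [Group H]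
    (h : Free k H) {N : ℕ} (ρ : H →* GL (Fin N) k) : HPF k (Inv ρ) := by
  obtain ⟨S, hS⟩ := hk
  have h1 : HilbF k := Pool.Agent.W583.HP.fg k S hS
  refine hpf_inv (Fb := AlgebraicClosure k) ρ (Pool.Agent.W405.HP.hit k h1) (fun a ha => ?_)
    fun E hE => occ_of_free k H h ρ E hE
  have h3 : a ∈ (⊥ : IntermediateField k (AlgebraicClosure k)) := by
    rw [InfiniteGalois.mem_bot_iff_fixed]
    exact ha
  exact IntermediateField.mem_bot.1 h3

/-- Powers. -/
theorem free_pow {k H : Type} [Field k] [Group H] (h : Free k H) (m : ℕ) :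
    GalGp k (Fin m → H) := by
  induction m with
  | zero =>
    refine ⟨k, inferInstance, inferInstance, inferInstance, inferInstance, ⟨?_⟩⟩
    have h1 : ∀ σ : k ≃ₐ[k] k, σ = 1 := fun σ => AlgEquiv.ext fun x => σ.commutes x
    have h2 : Unique (k ≃ₐ[k] k) := ⟨⟨1⟩, h1⟩
    exact MulEquiv.ofUnique
  | succ m ih =>
    obtain ⟨L, i1, i2, i3, i4, ⟨e⟩⟩ := ih
    obtain ⟨F, j1, j2, j3, j4, j5, j6, γ, -⟩ := h L
    refine ⟨F, j1, j2, j5, j6, ⟨(γ.trans (MulEquiv.prodCongr (MulEquiv.refl H) e)).trans ?_⟩⟩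
    exact
      { toFun := fun x => Fin.cons x.1 x.2
        invFun := fun x => (x 0, Fin.tail x)
        left_inv := fun x => rfl
        right_inv := fun x => Fin.cons_self_tail x
        map_mul' := fun x y => by
          funext i
          refine Fin.cases rfl (fun i => rfl) i }

end Pool.Agent.K3h17.HQ
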