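import Mathlib
import Pool.Agent.K3h17.HQ.Fre
import Pool.Agent.TH15.IGP.TwT

/-! Groups all whose powers are Galois groups over the field `k`. -/

set_option autoImplicit false

namespace Pool.Agent.K3h17.HQ

open AlgEquiv

theorem exists_full {H : Type} [Group H] [Finite H] (m : ℕ) (R : Subgroup (Fin m → H))
    (hR : R.index < 2 ^ m) : ∃ i, ∀ h : H, ∃ x ∈ R, x i = h := by
  classical
  by_contra hcon
  push Not at hcon
  choose h hh using hcon
  let S : Fin m → Subgroup H := fun i => R.map (Pi.evalMonoidHom (fun _ : Fin m => H) i)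
  have h1 : ∀ i, Nat.card (S i) * 2 ≤ Nat.card H := by
    intro i
    rw [← Subgroup.card_mul_index (S i)]
    refine Nat.mul_le_mul_left _ ?_
    have h2 : (S i).index ≠ 0 := Subgroup.index_ne_zero_of_finite
    have h3 : (S i).index ≠ 1 := by
      intro h3
      rw [Subgroup.index_eq_one] at h3
      have h4 : h i ∈ S i := by rw [h3]; exact Subgroup.mem_top _
      obtain ⟨x, hx, hxi⟩ := h4
      exact hh i x hx hxi
    omega
  have h2 : Nat.card R ≤ ∏ i, Nat.card (S i) := by
    rw [← Nat.card_pi]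
    refine Nat.card_le_card_of_injective
      (fun (x : R) (i : Fin m) => (⟨x.1 i, ⟨x.1, x.2, rfl⟩⟩ : S i)) ?_
    intro x y hxy
    apply Subtype.ext
    funext i
    exact congrArg Subtype.val (congrFun hxy i)
  have h3 : Nat.card R * 2 ^ m ≤ Nat.card R * R.index := by
    calc Nat.card R * 2 ^ m ≤ (∏ i, Nat.card (S i)) * 2 ^ m := Nat.mul_le_mul_right _ h2
      _ = ∏ i, (Nat.card (S i) * 2) := by
        rw [Finset.prod_mul_distrib, Finset.prod_const, Finset.card_univ, Fintype.card_fin]
      _ ≤ ∏ _i : Fin m, Nat.card H := Finset.prod_le_prod' fun i _ => h1 i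
      _ = Nat.card (Fin m → H) := by
        rw [Nat.card_pi]
      _ = Nat.card R * R.index := (Subgroup.card_mul_index R).symm
  have h4 : 0 < Nat.card R := Nat.card_pos
  exact absurd (Nat.le_of_mul_le_mul_left h3 h4) (not_le.2 hR)

theorem open_ker {k Ω L : Type} [Field k] [Field Ω] [Algebra k Ω] [Field L]
    [Algebra k L] [FiniteDimensional k L] [Algebra L Ω] [IsScalarTower k L Ω] [Normal k L] :
    IsOpen ((restrictNormalHom (F := k) (K₁ := Ω) L).ker : Set Gal(Ω/k)) := by
  let E' : IntermediateField k Ω := (IsScalarTower.toAlgHom k L Ω).fieldRange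
  have hE' : FiniteDimensional k E' := Module.Finite.equiv
    (AlgEquiv.ofInjectiveField (IsScalarTower.toAlgHom k L Ω)).toLinearEquiv
  refine Subgroup.isOpen_mono (H₁ := E'.fixingSubgroup) ?_ E'.fixingSubgroup_isOpen
  intro σ hσ
  rw [MonoidHom.mem_ker]
  apply AlgEquiv.ext
  intro x
  apply (algebraMap L Ω).injective
  refine (AlgEquiv.restrictNormal_commutes σ L x).trans ?_
  rw [IntermediateField.mem_fixingSubgroup_iff] at hσ
  exact hσ _ ⟨x, rfl⟩

/-- A homomorphism of the absolute Galois group onto a product. -/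
theorem free_of_hom {k H Ω : Type} [Field k] [Group H] [Field Ω] [Algebra k Ω]
    [IsGalois k Ω] [IsSepClosed Ω]
    (h : ∀ (L : Type) [Field L] [Algebra k L] [FiniteDimensional k L] [IsGalois k L]
      [Algebra L Ω] [IsScalarTower k L Ω],
      ∃ f : Gal(Ω/k) →* H, IsOpen (f.ker : Set Gal(Ω/k)) ∧
        ∀ x : H, ∃ σ, restrictNormalHom (F := k) (K₁ := Ω) L σ = 1 ∧ f σ = x) : Free k H := by
  classical
  intro L _ _ _ _
  let j : L →ₐ[k] Ω := IsSepClosed.lift
  let aL : Algebra L Ω := j.toRingHom.toAlgebra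
  have hT : IsScalarTower k L Ω := IsScalarTower.of_algebraMap_eq fun x => (j.commutes x).symm
  obtain ⟨f, hfo, hf⟩ := h L
  let r : Gal(Ω/k) →* (L ≃ₐ[k] L) := restrictNormalHom L
  have hr : Function.Surjective r := restrictNormalHom_surjective Ω
  let F : Gal(Ω/k) →* H × (L ≃ₐ[k] L) := f.prod r
  have hF : Function.Surjective F := by
    rintro ⟨x, δ⟩
    obtain ⟨τ, hτ⟩ := hr δ
    obtain ⟨σ, hσ1, hσ2⟩ := hf (x * (f τ)⁻¹)
    refine ⟨σ * τ, ?_⟩
    apply Prod.ext
    · change f (σ * τ) = x
      rw [map_mul, hσ2, inv_mul_cancel_right]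
    · change r (σ * τ) = δ
      rw [map_mul, hτ]
      change restrictNormalHom L σ * δ = δ
      rw [hσ1, one_mul]
  have hFo : IsOpen (F.ker : Set Gal(Ω/k)) := by
    have h1 : (F.ker : Set Gal(Ω/k)) = (f.ker : Set Gal(Ω/k)) ∩ (r.ker : Set Gal(Ω/k)) := by
      ext σ
      change F σ = 1 ↔ f σ = 1 ∧ r σ = 1
      exact Prod.ext_iff
    rw [h1]
    exact hfo.inter open_ker
  obtain ⟨N, hN1, hN2, ε, hε⟩ := Pool.Agent.TH15.IGP.exists_fix F hF hFo
  have hmem : ∀ x : L, j x ∈ N := by
    intro x
    have h1 : j x ∈ IntermediateField.fixedField N.fixingSubgroup := by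
      rw [IntermediateField.mem_fixedField_iff]
      intro σ hσ
      have h2 : restrictNormalHom N σ = 1 := by
        apply AlgEquiv.ext
        intro y
        apply Subtype.ext
        rw [IntermediateField.mem_fixingSubgroup_iff] at hσ
        exact (AlgEquiv.restrictNormal_commutes σ N y).trans (hσ _ y.2)
      have h3 : F σ = 1 := by
        rw [← hε, h2, map_one]
      have h4 : r σ = 1 := congrArg Prod.snd h3
      have h5 := AlgEquiv.restrictNormal_commutes σ L x
      have h6 : σ.restrictNormal L = 1 := h4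
      rw [h6] at h5
      exact h5.symm
    rw [InfiniteGalois.fixedField_fixingSubgroup] at h1
    exact h1
  let j' : L →ₐ[k] N :=
    { toFun := fun x => ⟨j x, hmem x⟩
      map_one' := Subtype.ext (map_one j)
      map_mul' := fun x y => Subtype.ext (map_mul j x y)
      map_zero' := Subtype.ext (map_zero j)
      map_add' := fun x y => Subtype.ext (map_add j x y)
      commutes' := fun x => Subtype.ext (j.commutes x) }
  let aN : Algebra L N := j'.toRingHom.toAlgebra
  have hTN : IsScalarTower k L N := IsScalarTower.of_algebraMap_eq fun x => (j'.commutes x).symm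
  refine ⟨N, inferInstance, inferInstance, aN, hTN, hN1, hN2, ε, fun τ => ?_⟩
  obtain ⟨σ, hσ⟩ := restrictNormalHom_surjective (F := k) (K₁ := N) Ω τ
  rw [← hσ, hε]
  change σ.restrictNormal L = (σ.restrictNormal N).restrictNormal L
  apply AlgEquiv.ext
  intro x
  apply (algebraMap L Ω).injective
  rw [AlgEquiv.restrictNormal_commutes]
  have h1 := AlgEquiv.restrictNormal_commutes (σ.restrictNormal N) L x
  have h2 := AlgEquiv.restrictNormal_commutes σ N (algebraMap L N x)
  have h3 := congrArg (algebraMap N Ω) h1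
  exact (h3.trans h2).symm

theorem free_of_pow {k H : Type} [Field k] [Group H] [Finite H]
    (h : ∀ m, GalGp k (Fin m → H)) : Free k H := by
  refine free_of_hom (Ω := SeparableClosure k) fun L _ _ _ _ _ _ => ?_
  let Ω := SeparableClosure k
  obtain ⟨m, hm⟩ := pow_unbounded_of_one_lt (Nat.card (L ≃ₐ[k] L)) (one_lt_two : 1 < 2)
  obtain ⟨M, i1, i2, i3, i4, ⟨e⟩⟩ := h m
  let j : M →ₐ[k] Ω := IsSepClosed.lift
  let aM : Algebra M Ω := j.toRingHom.toAlgebra
  have hT : IsScalarTower k M Ω := IsScalarTower.of_algebraMap_eq fun x => (j.commutes x).symm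
  let rM : Gal(Ω/k) →* (M ≃ₐ[k] M) := restrictNormalHom M
  have hrM : Function.Surjective rM := restrictNormalHom_surjective Ω
  let rL : Gal(Ω/k) →* (L ≃ₐ[k] L) := restrictNormalHom L
  let π : Gal(Ω/k) →* (Fin m → H) := e.toMonoidHom.comp rM
  have hπ : Function.Surjective π := e.surjective.comp hrM
  have hidx : (rL.ker.map π).index < 2 ^ m := by
    have h1 : (rL.ker.map π).index ∣ rL.ker.index := Subgroup.index_map_dvd _ hπ
    have h2 : rL.ker.index ≤ Nat.card (L ≃ₐ[k] L) := by
      rw [Subgroup.index_ker]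
      exact Subgroup.card_le_card_group _
    have h3 : rL.ker.index ≠ 0 := by
      rw [Subgroup.index_ker]
      exact Nat.card_pos.ne'
    exact ((Nat.le_of_dvd (Nat.pos_of_ne_zero h3) h1).trans h2).trans_lt hm
  obtain ⟨i, hi⟩ := exists_full m _ hidx
  refine ⟨(Pi.evalMonoidHom (fun _ : Fin m => H) i).comp π, ?_, fun x => ?_⟩
  · refine Subgroup.isOpen_mono (H₁ := rM.ker) ?_ open_ker
    intro σ hσ
    rw [MonoidHom.mem_ker] at hσ ⊢
    change (e (rM σ)) i = 1
    rw [hσ, map_one, Pi.one_apply]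
  · obtain ⟨y, ⟨σ, hσ, hσy⟩, hy⟩ := hi x
    refine ⟨σ, hσ, ?_⟩
    change π σ i = x
    rw [hσy, hy]

end Pool.Agent.K3h17.HQ
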