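import Mathlib
import Pool.Agent.K3h17.HQ.Pow
import Pool.Agent.TH444.TW.Cls

/-! The class of homomorphisms is closed under products with a group; the step. -/

set_option autoImplicit false

namespace Pool.Agent.K3h17.HQ

open Pool.Agent.H391R2.T4 (RegSol HilbField)
open Pool.Agent.H391R2 (Wr)
open Pool.Agent.TH444.TW

variable {K : Type} [Field K]

theorem kerEquiv {W W' : Type} [Group W] [Group W'] (p : W' →* W) (Δ : Type) [Group Δ] :
    Nonempty ((p.prodMap (MonoidHom.id Δ)).ker ≃* p.ker) := by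
  refine ⟨
    { toFun := fun x => ⟨x.1.1, congrArg Prod.fst x.2⟩
      invFun := fun x => ⟨(x.1, 1), Prod.ext x.2 rfl⟩
      left_inv := fun x => ?_
      right_inv := fun x => rfl
      map_mul' := fun x y => rfl }⟩
  apply Subtype.ext
  apply Prod.ext
  · rfl
  · exact (congrArg Prod.snd x.2).symm

theorem cls_prod {W W' : Type} [Group W] [Group W'] {p : W' →* W} (h : Cls K p) (Δ : Type)
    [Group Δ] : Cls K (p.prodMap (MonoidHom.id Δ)) := by
  induction h with
  | abelian p s hs hfin hcomm =>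
    obtain ⟨e⟩ := kerEquiv p Δ
    refine Cls.abelian _ (s.prodMap (MonoidHom.id Δ)) (fun w => Prod.ext (hs w.1) rfl)
      (Finite.of_equiv _ e.symm.toEquiv) ?_
    intro x y hx hy
    have hx2 : x.2 = 1 := congrArg Prod.snd hx
    have hy2 : y.2 = 1 := congrArg Prod.snd hy
    refine Prod.ext (hcomm _ _ (congrArg Prod.fst hx) (congrArg Prod.fst hy)) ?_
    rw [Prod.snd_mul, Prod.snd_mul, hx2, hy2]
  | inner p A hA hp =>
    obtain ⟨k, ψ, ι, s, hι, hr, hs, hc⟩ := hp
    refine Cls.inner _ A hA ⟨k, ψ.comp (MonoidHom.fst _ Δ), (MonoidHom.inl _ Δ).comp ι,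
      s.prodMap (MonoidHom.id Δ), ?_, ?_, fun w => Prod.ext (hs w.1) rfl, ?_⟩
    · intro x y hxy
      exact hι (congrArg Prod.fst hxy)
    · ext z
      constructor
      · rintro ⟨x, rfl⟩
        have h1 : ι x ∈ p.ker := by rw [← hr]; exact ⟨x, rfl⟩
        exact Prod.ext h1 rfl
      · intro hz
        have h1 : z.1 ∈ p.ker := congrArg Prod.fst hz
        rw [← hr] at h1
        obtain ⟨x, hx⟩ := h1
        exact ⟨x, Prod.ext hx (congrArg Prod.snd hz).symm⟩
    · intro w x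
      refine Prod.ext (hc w.1 x) ?_
      change w.2 * 1 = 1 * w.2
      rw [mul_one, one_mul]
  | wreath p G n hn hp =>
    obtain ⟨k, ψ, ι, s, hι, hr, hs, hc⟩ := hp
    refine Cls.wreath _ G n hn ⟨k, ψ.comp (MonoidHom.fst _ Δ), (MonoidHom.inl _ Δ).comp ι,
      s.prodMap (MonoidHom.id Δ), ?_, ?_, fun w => Prod.ext (hs w.1) rfl, ?_⟩
    · intro x y hxy
      exact hι (congrArg Prod.fst hxy)
    · ext z
      constructor
      · rintro ⟨x, rfl⟩
        have h1 : ι x ∈ p.ker := by rw [← hr]; exact ⟨x, rfl⟩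
        exact Prod.ext h1 rfl
      · intro hz
        have h1 : z.1 ∈ p.ker := congrArg Prod.fst hz
        rw [← hr] at h1
        obtain ⟨x, hx⟩ := h1
        exact ⟨x, Prod.ext hx (congrArg Prod.snd hz).symm⟩
    · intro w x
      refine Prod.ext (hc w.1 x) ?_
      change w.2 * 1 = 1 * w.2
      rw [mul_one, one_mul]
  | kernel p hs I G hZ hT n hn hN =>
    obtain ⟨e⟩ := hN
    obtain ⟨e'⟩ := kerEquiv p Δ
    refine Cls.kernel _ ?_ I G hZ hT n hn ⟨e'.trans e⟩
    intro w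
    obtain ⟨x, hx⟩ := hs w.1
    exact ⟨(x, w.2), Prod.ext hx rfl⟩
  | comp p q hp hq ihp ihq => exact Cls.comp _ _ ihp ihq
  | quot p q hq hpq ih =>
    refine Cls.quot _ (q.prodMap (MonoidHom.id Δ)) ?_ ih
    intro w
    obtain ⟨x, hx⟩ := hq w.1
    exact ⟨(x, w.2), Prod.ext hx rfl⟩

/-- The step. -/
theorem free_step {W W' : Type} [Group W] [Finite W] [Group W'] {p : W' →* W} (hK : HilbField K)
    (hp : Cls K p) (hW : Free K W) : Free K W' := by
  intro L _ _ _ _
  obtain ⟨F₁, i1, i2, i3, i4, i5, i6, γ₁, hγ₁⟩ := hW L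
  have hinf : Infinite K := infinite_of_hilb hK
  have hΔ : Finite (L ≃ₐ[K] L) := inferInstance
  have h1 := (cls_prod hp (L ≃ₐ[K] L)).rsk (K := K) K F₁ γ₁
  have hW' : Finite W' := hp.finite
  obtain ⟨F₂, j1, j2, j3, j4, j5, j6, γ₂, hγ₂⟩ := Pool.Agent.TH59.WX.hil_of_reg K F₁ _ hK _ h1
  let aL : Algebra L F₂ := ((algebraMap F₁ F₂).comp (algebraMap L F₁)).toAlgebra
  have hT1 : IsScalarTower L F₁ F₂ := IsScalarTower.of_algebraMap_eq fun x => rfl
  have hT2 : IsScalarTower K L F₂ := IsScalarTower.of_algebraMap_eq fun x => by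
    rw [IsScalarTower.algebraMap_apply L F₁ F₂, ← IsScalarTower.algebraMap_apply K L F₁,
      ← IsScalarTower.algebraMap_apply K F₁ F₂]
  refine ⟨F₂, j1, j2, aL, hT2, j5, j6, γ₂, fun σ => ?_⟩
  have h2 := hγ₂ σ
  have h3 : (p.prodMap (MonoidHom.id (L ≃ₐ[K] L))) (γ₂ σ) = γ₁ (σ.restrictNormal F₁) := by
    rw [← h2]
    change _ = γ₁ (γ₁.symm _)
    rw [MulEquiv.apply_symm_apply]
  have h4 : (γ₂ σ).2 = (γ₁ (σ.restrictNormal F₁)).2 := congrArg Prod.snd h3
  rw [h4, hγ₁]
  apply AlgEquiv.ext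
  intro x
  apply (algebraMap L F₂).injective
  rw [AlgEquiv.restrictNormal_commutes σ L x]
  have h5 := AlgEquiv.restrictNormal_commutes (σ.restrictNormal F₁) L x
  have h6 := AlgEquiv.restrictNormal_commutes σ F₁ (algebraMap L F₁ x)
  have h7 := congrArg (algebraMap F₁ F₂) h5
  exact h7.trans h6

end Pool.Agent.K3h17.HQ
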