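import Mathlib

/-! Rational points which do not lift: the decomposition group is everything. -/

set_option autoImplicit false

namespace Pool.Agent.K3h17.HQ

open scoped Pointwise

section dec

variable {B R : Type} (Γ : Type) [CommRing B] [CommRing R] [Algebra B R]
  [Group Γ] [MulSemiringAction Γ R] [SMulCommClass Γ B R]

/-- The invariants of a subgroup. -/
def fixU (U : Subgroup Γ) : Subalgebra B R where
  carrier := {r | ∀ u ∈ U, u • r = r}
  mul_mem' := by
    intro a b ha hb u hu
    rw [smul_mul', ha u hu, hb u hu]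
  one_mem' := fun u _ => smul_one u
  add_mem' := by
    intro a b ha hb u hu
    rw [smul_add, ha u hu, hb u hu]
  zero_mem' := fun u _ => smul_zero u
  algebraMap_mem' := by
    intro r u _
    rw [Algebra.algebraMap_eq_smul_one, smul_comm, smul_one]

theorem mem_fixU (U : Subgroup Γ) (r : R) :
    r ∈ fixU (B := B) (R := R) Γ U ↔ ∀ u ∈ U, u • r = r := Iff.rfl

attribute [local instance] Ideal.Quotient.field in
/-- The decomposition group. -/
theorem dec {k : Type} [Field k] [CharZero k] [Algebra k B] [Algebra k R] [IsScalarTower k B R]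
    [Finite Γ] [Algebra.IsInvariant B R Γ] [FaithfulSMul B R] (φ : B →ₐ[k] k)
    (hφ : ∀ U : Subgroup Γ, U ≠ ⊤ → ∀ ψ : fixU (B := B) (R := R) Γ U →+* k,
      (∀ b : B, ψ (algebraMap B _ b) = φ b) → False) :
    ∃ (κ : Type) (_ : Field κ) (_ : Algebra k κ) (q : R →ₐ[k] κ) (θ : Γ →* (κ ≃ₐ[k] κ)),
      Function.Surjective q ∧ FiniteDimensional k κ ∧ IsGalois k κ ∧
      (∀ b : B, q (algebraMap B R b) = algebraMap k κ (φ b)) ∧ Function.Surjective θ ∧
      ∀ g x, θ g (q x) = q (g • x) := by
  classical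
  let P : Ideal B := RingHom.ker φ
  have hφs : Function.Surjective φ := fun a => ⟨algebraMap k B a, φ.commutes a⟩
  have hPm : P.IsMaximal := RingHom.ker_isMaximal_of_surjective φ.toRingHom hφs
  have hint : Algebra.IsIntegral B R := Algebra.IsInvariant.isIntegral B R Γ
  obtain ⟨Q, hQm, hQP⟩ := Ideal.exists_maximal_ideal_liesOver_of_isIntegral (S := R) P
  -- constants
  have hconst : ∀ b : B, ∃ a : k, Ideal.Quotient.mk P b = Ideal.Quotient.mk P (algebraMap k B a) := by
    intro b
    refine ⟨φ b, ?_⟩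
    rw [Ideal.Quotient.eq]
    change φ (b - algebraMap k B (φ b)) = 0
    rw [map_sub, φ.commutes]
    exact sub_self _
  have hbQ : ∀ b : B, Ideal.Quotient.mk Q (algebraMap B R b) =
      Ideal.Quotient.mk Q (algebraMap k R (φ b)) := by
    intro b
    rw [Ideal.Quotient.eq, IsScalarTower.algebraMap_apply k B R, ← map_sub]
    have h1 : b - algebraMap k B (φ b) ∈ P := by
      change φ (b - algebraMap k B (φ b)) = 0
      rw [map_sub, φ.commutes]
      exact sub_self _
    rw [Ideal.over_def Q P] at h1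
    exact h1
  have hcP : CharZero (B ⧸ P) := charZero_of_injective_algebraMap (algebraMap k (B ⧸ P)).injective
  have hnor : Normal (B ⧸ P) (R ⧸ Q) := Ideal.Quotient.normal Γ P Q
  have hsep : Algebra.IsSeparable (B ⧸ P) (R ⧸ Q) := inferInstance
  have hgal : IsGalois (B ⧸ P) (R ⧸ Q) := ⟨⟩
  have hfin : Module.Finite (B ⧸ P) (R ⧸ Q) := Ideal.Quotient.finite_of_isInvariant Γ P Q
  have hst := Ideal.Quotient.stabilizerHom_surjective (A := B) (B := R) Γ P Q
  have hD : MulAction.stabilizer Γ Q = ⊤ := by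
    by_contra hD
    let D := MulAction.stabilizer Γ Q
    have h1 : ∀ c : fixU (B := B) (R := R) Γ D, ∃ a : k, Ideal.Quotient.mk Q (c : R) =
        algebraMap k (R ⧸ Q) a := by
      intro c
      have h2 : (Ideal.Quotient.mk Q (c : R)) ∈ (⊥ : IntermediateField (B ⧸ P) (R ⧸ Q)) := by
        rw [IsGalois.mem_bot_iff_fixed]
        intro f
        obtain ⟨g, rfl⟩ := hst f
        change Ideal.Quotient.mk Q ((g : Γ) • (c : R)) = _
        rw [c.2 g g.2]
      obtain ⟨y, hy⟩ := IntermediateField.mem_bot.1 h2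
      obtain ⟨b, rfl⟩ := Ideal.Quotient.mk_surjective y
      refine ⟨φ b, ?_⟩
      rw [← hy]
      exact hbQ b
    have hki : Function.Injective (algebraMap k (R ⧸ Q)) := (algebraMap k (R ⧸ Q)).injective
    choose ψ hψ using h1
    refine hφ D hD
      { toFun := ψ
        map_one' := hki (by rw [← hψ, map_one]; exact map_one _)
        map_mul' := fun x y => hki (by
          rw [← hψ, map_mul, ← hψ, ← hψ]
          exact map_mul _ _ _)
        map_zero' := hki (by rw [← hψ, map_zero]; exact map_zero _)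
        map_add' := fun x y => hki (by
          rw [← hψ, map_add, ← hψ, ← hψ]
          exact map_add _ _ _) } fun b => ?_
    apply hki
    change algebraMap k (R ⧸ Q) (ψ _) = _
    rw [← hψ]
    exact hbQ b
  have hall : ∀ g : Γ, g ∈ MulAction.stabilizer Γ Q := fun g => by
    rw [hD]
    exact Subgroup.mem_top g
  let ι : Γ →* MulAction.stabilizer Γ Q :=
    { toFun := fun g => ⟨g, hall g⟩
      map_one' := rfl
      map_mul' := fun x y => rfl }
  have hTk : ∀ a : k, algebraMap k (R ⧸ Q) a =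
      algebraMap (B ⧸ P) (R ⧸ Q) (Ideal.Quotient.mk P (algebraMap k B a)) := by
    intro a
    change Ideal.Quotient.mk Q (algebraMap k R a) = Ideal.Quotient.mk Q (algebraMap B R _)
    rw [IsScalarTower.algebraMap_apply k B R]
  let res : ((R ⧸ Q) ≃ₐ[B ⧸ P] (R ⧸ Q)) →* ((R ⧸ Q) ≃ₐ[k] (R ⧸ Q)) :=
    { toFun := fun f => AlgEquiv.ofRingEquiv (f := f.toRingEquiv) fun a => by
        rw [hTk]
        exact f.commutes _
      map_one' := rfl
      map_mul' := fun x y => rfl }
  have hres : Function.Surjective res := by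
    intro f
    refine ⟨AlgEquiv.ofRingEquiv (f := f.toRingEquiv) fun y => ?_, ?_⟩
    · obtain ⟨b, rfl⟩ := Ideal.Quotient.mk_surjective y
      obtain ⟨a, ha⟩ := hconst b
      rw [ha, ← hTk]
      exact f.commutes a
    · apply AlgEquiv.ext
      intro x
      rfl
  let f₀ : (B ⧸ P) ≃+* k := (Ideal.quotEquivOfEq rfl).trans
    (RingHom.quotientKerEquivOfSurjective (f := φ.toRingHom) hφs)
  have hf₀ : ∀ b, f₀ (Ideal.Quotient.mk P b) = φ b := fun b => rfl
  have hcomp : (algebraMap k (R ⧸ Q)).comp (f₀ : (B ⧸ P) →+* k) =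
      ((RingEquiv.refl (R ⧸ Q)) : (R ⧸ Q) →+* (R ⧸ Q)).comp (algebraMap (B ⧸ P) (R ⧸ Q)) := by
    apply RingHom.ext
    intro y
    obtain ⟨b, rfl⟩ := Ideal.Quotient.mk_surjective y
    change algebraMap k (R ⧸ Q) (f₀ (Ideal.Quotient.mk P b)) = Ideal.Quotient.mk Q (algebraMap B R b)
    rw [hf₀, hbQ]
    rfl
  have hgk : IsGalois k (R ⧸ Q) := IsGalois.of_equiv_equiv hcomp
  have hfk : FiniteDimensional k (R ⧸ Q) := by
    have hfg : Finite ((R ⧸ Q) ≃ₐ[k] (R ⧸ Q)) := Finite.of_surjective _ hres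
    exact IsGalois.finiteDimensional_of_finite _ _
  refine ⟨R ⧸ Q, inferInstance, inferInstance, Ideal.Quotient.mkₐ k Q,
    (res.comp (Ideal.Quotient.stabilizerHom Q P Γ)).comp ι, Ideal.Quotient.mkₐ_surjective k Q,
    hfk, hgk, hbQ, ?_, fun g x => rfl⟩
  have hι : Function.Surjective ι := fun g => ⟨g.1, rfl⟩
  exact (hres.comp hst).comp hι

end dec

end Pool.Agent.K3h17.HQ
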