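import Mathlib
import Pool.Agent.K3h17.HQ.Dec

/-! Polynomials with the action of `H × Gal(L/k)`. -/

set_option autoImplicit false

namespace Pool.Agent.K3h17.HQ

open MvPolynomial

section pl

variable {k : Type} [Field k] {H : Type} [Group H] {N : ℕ} (π : H →* Equiv.Perm (Fin N))

/-- The invariant polynomials. -/
noncomputable def Bk : Subalgebra k (MvPolynomial (Fin N) k) where
  carrier := {p | ∀ h : H, rename (π h) p = p}
  mul_mem' := by
    intro a b ha hb h
    rw [map_mul, ha, hb]
  one_mem' := fun h => map_one _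
  add_mem' := by
    intro a b ha hb h
    rw [map_add, ha, hb]
  zero_mem' := fun h => map_zero _
  algebraMap_mem' := fun r h => (rename (π h)).commutes r

theorem mem_Bk (p : MvPolynomial (Fin N) k) : p ∈ Bk π ↔ ∀ h : H, rename (π h) p = p := Iff.rfl

variable (L : Type) [Field L] [Algebra k L]

/-- The action of a pair. -/
noncomputable def act (g : H × (L ≃ₐ[k] L)) :
    MvPolynomial (Fin N) L →+* MvPolynomial (Fin N) L :=
  ((rename (π g.1) : MvPolynomial (Fin N) L →ₐ[L] MvPolynomial (Fin N) L) :
    MvPolynomial (Fin N) L →+* MvPolynomial (Fin N) L).comp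
    (MvPolynomial.map ((g.2 : L ≃+* L) : L →+* L))

theorem act_apply (g : H × (L ≃ₐ[k] L)) (p : MvPolynomial (Fin N) L) :
    act π L g p = rename (π g.1) (MvPolynomial.map ((g.2 : L ≃+* L) : L →+* L) p) := rfl

theorem act_C (g : H × (L ≃ₐ[k] L)) (a : L) : act π L g (C a) = C (g.2 a) := by
  rw [act_apply, MvPolynomial.map_C, rename_C]
  rfl

theorem act_X (g : H × (L ≃ₐ[k] L)) (i : Fin N) : act π L g (X i) = X (π g.1 i) := by
  rw [act_apply, MvPolynomial.map_X, rename_X]

theorem act_one (p : MvPolynomial (Fin N) L) :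
    act π L (1 : H × (L ≃ₐ[k] L)) p = p := by
  have h1 : act π L (1 : H × (L ≃ₐ[k] L)) = RingHom.id (MvPolynomial (Fin N) L) := by
    apply MvPolynomial.ringHom_ext
    · intro a
      rw [act_C]
      rfl
    · intro i
      rw [act_X, Prod.fst_one, map_one]
      rfl
  rw [h1]
  rfl

theorem act_mul (g g' : H × (L ≃ₐ[k] L)) (p : MvPolynomial (Fin N) L) :
    act π L (g * g') p = act π L g (act π L g' p) := by
  have h1 : act π L (g * g') = (act π L g).comp (act π L g') := by
    apply MvPolynomial.ringHom_ext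
    · intro a
      rw [RingHom.comp_apply, act_C, act_C, act_C]
      rfl
    · intro i
      rw [RingHom.comp_apply, act_X, act_X, act_X, Prod.fst_mul, map_mul]
      rfl
  rw [h1]
  rfl

/-- The action. -/
@[reducible] noncomputable def mact : MulSemiringAction (H × (L ≃ₐ[k] L))
    (MvPolynomial (Fin N) L) where
  smul g p := act π L g p
  one_smul p := act_one π L p
  mul_smul g g' p := act_mul π L g g' p
  smul_zero _ := map_zero _
  smul_add _ := map_add _
  smul_one _ := map_one _
  smul_mul _ := map_mul _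

/-- The inclusion. -/
@[reducible] noncomputable def algBk : Algebra (Bk (k := k) π) (MvPolynomial (Fin N) L) :=
  ((MvPolynomial.map (algebraMap k L)).comp (Bk (k := k) π).val.toRingHom).toAlgebra

attribute [local instance] algBk

theorem towerBk : IsScalarTower k (Bk (k := k) π) (MvPolynomial (Fin N) L) := by
  refine IsScalarTower.of_algebraMap_eq fun x => ?_
  change _ = MvPolynomial.map (algebraMap k L) (C x)
  rw [MvPolynomial.map_C]
  rfl

theorem alg_apply (b : Bk (k := k) π) :
    algebraMap (Bk (k := k) π) (MvPolynomial (Fin N) L) b =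
      MvPolynomial.map (algebraMap k L) (b : MvPolynomial (Fin N) k) := rfl

theorem alg_inj : Function.Injective
    (algebraMap (Bk (k := k) π) (MvPolynomial (Fin N) L)) := by
  intro x y hxy
  rw [alg_apply, alg_apply] at hxy
  exact Subtype.ext (MvPolynomial.map_injective _ (algebraMap k L).injective hxy)

theorem act_alg (g : H × (L ≃ₐ[k] L)) (b : Bk (k := k) π) :
    act π L g (algebraMap (Bk (k := k) π) (MvPolynomial (Fin N) L) b) =
      algebraMap (Bk (k := k) π) (MvPolynomial (Fin N) L) b := by
  rw [alg_apply, act_apply, MvPolynomial.map_map]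
  have h1 : ((g.2 : L ≃+* L) : L →+* L).comp (algebraMap k L) = algebraMap k L :=
    RingHom.ext fun a => g.2.commutes a
  rw [h1, ← MvPolynomial.map_rename, b.2 g.1]

theorem smulComm : letI := mact (k := k) π L
    SMulCommClass (H × (L ≃ₐ[k] L)) (Bk (k := k) π) (MvPolynomial (Fin N) L) := by
  let _ := mact (k := k) π L
  refine ⟨fun g b p => ?_⟩
  rw [Algebra.smul_def, Algebra.smul_def]
  change act π L g (_ * p) = _ * act π L g p
  rw [map_mul, act_alg]

theorem isInvt [FiniteDimensional k L] [IsGalois k L] : letI := mact (k := k) π L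
    Algebra.IsInvariant (Bk (k := k) π) (MvPolynomial (Fin N) L) (H × (L ≃ₐ[k] L)) := by
  let _ := mact (k := k) π L
  refine ⟨fun p hp => ?_⟩
  have hp' : ∀ g, act π L g p = p := hp
  have h1 : ∀ m, p.coeff m ∈ Set.range (algebraMap k L) := by
    intro m
    have h2 : p.coeff m ∈ (⊥ : IntermediateField k L) := by
      rw [IsGalois.mem_bot_iff_fixed]
      intro δ
      have h3 := congrArg (MvPolynomial.coeff m) (hp' (1, δ))
      rw [act_apply, map_one] at h3
      have h4 : rename (⇑(1 : Equiv.Perm (Fin N))) (MvPolynomial.map ((δ : L ≃+* L) : L →+* L) p) =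
          MvPolynomial.map ((δ : L ≃+* L) : L →+* L) p := rename_id_apply _
      rw [h4, MvPolynomial.coeff_map] at h3
      exact h3
    exact IntermediateField.mem_bot.1 h2
  choose c hc using h1
  let p₀ : MvPolynomial (Fin N) k := ∑ m ∈ p.support, monomial m (c m)
  have hp₀ : MvPolynomial.map (algebraMap k L) p₀ = p := by
    rw [map_sum]
    conv_rhs => rw [← MvPolynomial.support_sum_monomial_coeff p]
    refine Finset.sum_congr rfl fun m _ => ?_
    rw [MvPolynomial.map_monomial, hc]
  refine ⟨⟨p₀, fun h => ?_⟩, hp₀⟩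
  apply MvPolynomial.map_injective (algebraMap k L) (algebraMap k L).injective
  rw [MvPolynomial.map_rename, hp₀]
  have h3 := hp' (h, 1)
  rw [act_apply] at h3
  have h4 : MvPolynomial.map (((1 : L ≃ₐ[k] L) : L ≃+* L) : L →+* L) p = p :=
    MvPolynomial.map_id p
  rw [h4] at h3
  exact h3

theorem finT [Finite H] [FiniteDimensional k L] [IsGalois k L] :
    Module.Finite (Bk (k := k) π) (MvPolynomial (Fin N) L) ∧
      Algebra.FiniteType k (Bk (k := k) π) := by
  let _ := mact (k := k) π L
  have := smulComm (k := k) π L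
  have := isInvt (k := k) π L
  have hint : Algebra.IsIntegral (Bk (k := k) π) (MvPolynomial (Fin N) L) :=
    Algebra.IsInvariant.isIntegral _ _ (H × (L ≃ₐ[k] L))
  have h1 : Algebra.FiniteType k L := inferInstance
  have h2 : Algebra.FiniteType L (MvPolynomial (Fin N) L) := inferInstance
  have h3 : Algebra.FiniteType k (MvPolynomial (Fin N) L) := h1.trans h2
  have hT : IsScalarTower k (Bk (k := k) π) (MvPolynomial (Fin N) L) := towerBk π L
  have h4 : Algebra.FiniteType (Bk (k := k) π) (MvPolynomial (Fin N) L) :=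
    Algebra.FiniteType.of_restrictScalars_finiteType k _ _
  have h5 : Module.Finite (Bk (k := k) π) (MvPolynomial (Fin N) L) :=
    Algebra.IsIntegral.finite
  refine ⟨h5, ⟨fg_of_fg_of_fg k (Bk (k := k) π) (MvPolynomial (Fin N) L) h3.1 h5.1 (alg_inj π L)⟩⟩

/-- A non-invariant element for each proper subgroup. -/
theorem exists_noninv [Finite H] [FiniteDimensional k L] [IsGalois k L] (i₀ : Fin N)
    (hi₀ : ∀ h, π h i₀ = i₀ → h = 1) (U : Subgroup (H × (L ≃ₐ[k] L))) (hU : U ≠ ⊤) :
    ∃ c : MvPolynomial (Fin N) L, (∀ u ∈ U, act π L u c = c) ∧ ∃ g : H × (L ≃ₐ[k] L), act π L g c ≠ c := by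
  classical
  by_contra hcon
  push Not at hcon
  apply hU
  let _ := mact (k := k) π L
  have := Fintype.ofFinite U
  obtain ⟨a, ha0, ha⟩ : ∃ a : L, a ≠ 0 ∧ ∀ δ : L ≃ₐ[k] L, δ a = a → δ = 1 := by
    obtain ⟨a, ha⟩ := Field.exists_primitive_element k L
    have h3 : ∀ δ : L ≃ₐ[k] L, δ a = a → δ = 1 := by
      intro δ hδ
      apply AlgEquiv.ext
      intro x
      have h1 : x ∈ IntermediateField.adjoin k {a} := by rw [ha]; trivial
      have h2 : ∀ x ∈ IntermediateField.adjoin k {a}, δ x = x := by
        intro x hx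
        induction hx using IntermediateField.adjoin_induction with
        | mem y hy =>
          rw [Set.mem_singleton_iff] at hy
          rw [hy]
          exact hδ
        | algebraMap y => exact δ.commutes y
        | add x y _ _ hx hy => rw [map_add, hx, hy]
        | inv x _ hx => rw [map_inv₀, hx]
        | mul x y _ _ hx hy => rw [map_mul, hx, hy]
      exact h2 x h1
    by_cases ha0 : a = 0
    · refine ⟨1, one_ne_zero, fun δ _ => h3 δ ?_⟩
      rw [ha0, map_zero]
    · exact ⟨a, ha0, h3⟩
  let θ : MvPolynomial (Fin N) L := C a * X i₀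
  have hθ : ∀ g : H × (L ≃ₐ[k] L), act π L g θ = θ → g = 1 := by
    intro g hg
    have h1 : C (g.2 a) * X (π g.1 i₀) = C a * X i₀ := by
      have h2 : act π L g (C a * X i₀) = C a * X i₀ := hg
      rwa [map_mul, act_C, act_X] at h2
    have h2 := congrArg (MvPolynomial.coeff (Finsupp.single i₀ 1)) h1
    rw [MvPolynomial.coeff_C_mul, MvPolynomial.coeff_C_mul, MvPolynomial.coeff_X,
      MvPolynomial.coeff_X, if_pos (rfl : Finsupp.single i₀ 1 = Finsupp.single i₀ 1),
      mul_one] at h2
    by_cases h3 : π g.1 i₀ = i₀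
    · rw [h3, if_pos rfl, mul_one] at h2
      exact Prod.ext (hi₀ _ h3) (ha _ h2)
    · rw [if_neg, mul_zero] at h2
      · exact absurd h2.symm ha0
      · intro h4
        exact h3 (Finsupp.single_left_injective one_ne_zero h4)
  have hF : ∀ g : H × (L ≃ₐ[k] L), g • MulSemiringAction.charpoly U θ =
      MulSemiringAction.charpoly U θ := by
    intro g
    ext1 n
    rw [Polynomial.coeff_smul]
    refine hcon _ (fun u hu => ?_) g
    exact MulSemiringAction.smul_coeff_charpoly θ n (⟨u, hu⟩ : U)
  rw [eq_top_iff]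
  intro g _
  have h1 : (MulSemiringAction.charpoly U θ).eval (g • θ) = 0 := by
    rw [← hF g, Polynomial.smul_eval_smul, MulSemiringAction.eval_charpoly, smul_zero]
  rw [MulSemiringAction.charpoly_eq, Polynomial.eval_prod, Finset.prod_eq_zero_iff] at h1
  obtain ⟨u, -, hu⟩ := h1
  rw [Polynomial.eval_sub, Polynomial.eval_X, Polynomial.eval_C, sub_eq_zero] at hu
  have h2 : ((u : H × (L ≃ₐ[k] L))⁻¹ * g) • θ = θ := by
    rw [mul_smul, hu]
    exact inv_smul_smul (u : H × (L ≃ₐ[k] L)) θ
  have h3 := hθ _ h2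
  rw [inv_mul_eq_one] at h3
  rw [← h3]
  exact u.2

end pl

end Pool.Agent.K3h17.HQ
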