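import Mathlib
import Pool.Agent.K3h17.HQ.Cl
import Pool.Agent.W253.HP.Sch
import Pool.Agent.W376.HP.NRM
import Pool.Agent.R70.HC.Defs

/-! The Hilbert property of the schemes with function field `k(x_1, ..., x_N)^H`. -/

set_option autoImplicit false

namespace Pool.Agent.K3h17.HQ

open AlgebraicGeometry CategoryTheory MvPolynomial W560.HP
open Pool.Agent.R70.HC (HilbertPropertyIso)

/-- The rational function `z` is invariant under the linear substitutions `ρ h`: whenever
`z = p / q`, then `p(ρ(h) x) q(x) = p(x) q(ρ(h) x)`. -/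
def IsInv {k H : Type} [Field k] [Group H] {N : ℕ} (ρ : H →* GL (Fin N) k)
    (z : FractionRing (MvPolynomial (Fin N) k)) : Prop :=
  ∀ (h : H) (p q : MvPolynomial (Fin N) k), q ≠ 0 → z * algebraMap _ _ q = algebraMap _ _ p →
    aeval (fun i => ∑ j, C ((ρ h : Matrix (Fin N) (Fin N) k) i j) * X j) p * q =
      p * aeval (fun i => ∑ j, C ((ρ h : Matrix (Fin N) (Fin N) k) i j) * X j) q

theorem isInv_iff {k H : Type} [Field k] [Group H] {N : ℕ} (ρ : H →* GL (Fin N) k)
    (z : FractionRing (MvPolynomial (Fin N) k)) : IsInv ρ z ↔ z ∈ Inv ρ := by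
  have hinj : Function.Injective (algebraMap (MvPolynomial (Fin N) k) (FR N k)) :=
    IsFractionRing.injective (MvPolynomial (Fin N) k) (FR N k)
  rw [mem_Inv]
  constructor
  · intro hz h
    obtain ⟨p, q, hq, rfl⟩ := IsFractionRing.div_surjective (A := MvPolynomial (Fin N) k) z
    have hq0 : q ≠ 0 := nonZeroDivisors.ne_zero hq
    have hq1 : algebraMap (MvPolynomial (Fin N) k) (FR N k) q ≠ 0 := by
      rw [Ne, map_eq_zero_iff _ hinj]
      exact hq0
    have h1 := hz h p q hq0 (div_mul_cancel₀ _ hq1)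
    have hq2 : algebraMap (MvPolynomial (Fin N) k) (FR N k) (ls (ρ h : Matrix _ _ k) q) ≠ 0 := by
      rw [Ne, map_eq_zero_iff _ hinj]
      intro h3
      exact hq0 (ls_inj (Units.isUnit (ρ h)) (h3.trans (map_zero _).symm))
    change U (Units.isUnit (ρ h)) _ = _
    rw [map_div₀, U_alg, U_alg, div_eq_div_iff hq2 hq1, ← map_mul, ← map_mul]
    exact congrArg _ h1
  · intro hz h p q hq hpq
    have h1 := congrArg (uh ρ h) hpq
    rw [map_mul, hz h] at h1
    change z * U (Units.isUnit (ρ h)) _ = U (Units.isUnit (ρ h)) _ at h1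
    rw [U_alg, U_alg] at h1
    apply hinj
    rw [map_mul, map_mul]
    change algebraMap (MvPolynomial (Fin N) k) (FR N k) (ls (ρ h : Matrix _ _ k) p) *
      algebraMap _ _ q = algebraMap _ _ p *
        algebraMap (MvPolynomial (Fin N) k) (FR N k) (ls (ρ h : Matrix _ _ k) q)
    rw [← h1, ← hpq]
    ring

/-- The integral `k`-scheme `X` has function field `k(x_1, ..., x_N)^H`. -/
def HasFF (k : Type) [Field k] {H : Type} [Group H] {N : ℕ} (ρ : H →* GL (Fin N) k)
    (X : Scheme.{0}) [IsIntegral X] (p : X ⟶ Spec (CommRingCat.of k)) : Prop :=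
  ∃ e : X.functionField →+* FractionRing (MvPolynomial (Fin N) k),
    (∀ a : k, e (toFF k X p a) = algebraMap (MvPolynomial (Fin N) k) _ (C a)) ∧
    Set.range e = {z | IsInv ρ z}

theorem exists_equiv {k : Type} [Field k] {H : Type} [Group H] {N : ℕ} {ρ : H →* GL (Fin N) k}
    {X : Scheme.{0}} [IsIntegral X] {p : X ⟶ Spec (CommRingCat.of k)} (h : HasFF k ρ X p) :
    ∃ e : X.functionField ≃+* Inv ρ, ∀ a : k, e (toFF k X p a) = algebraMap k (Inv ρ) a := by
  obtain ⟨e, he, hr⟩ := h
  have h1 : ∀ x, e x ∈ Inv ρ := by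
    intro x
    have h2 : e x ∈ Set.range e := ⟨x, rfl⟩
    rw [hr] at h2
    exact (isInv_iff ρ _).1 h2
  let e' : X.functionField →+* Inv ρ := e.codRestrict (Inv ρ) h1
  refine ⟨RingEquiv.ofBijective e' ⟨e'.injective, fun z => ?_⟩, fun a => ?_⟩
  · have h2 : (z : FR N k) ∈ Set.range e := by
      rw [hr]
      exact (isInv_iff ρ _).2 z.2
    obtain ⟨x, hx⟩ := h2
    exact ⟨x, Subtype.ext hx⟩
  · apply Subtype.ext
    change e (toFF k X p a) = ((algebraMap k (Inv ρ) a : Inv ρ) : FR N k)
    rw [he]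
    have h2 : ((algebraMap k (Inv ρ) a : Inv ρ) : FR N k) = algebraMap k (FR N k) a := rfl
    rw [h2, IsScalarTower.algebraMap_apply k (MvPolynomial (Fin N) k) (FR N k)]
    rfl

/-- All integral `k`-schemes locally of finite type with function field
`k(x_1, ..., x_N)^H`, for a linear action of `H`, have the Hilbert property. -/
def QuotHP (k H : Type) [Field k] [Group H] : Prop :=
  ∀ (N : ℕ) (ρ : H →* GL (Fin N) k) (X : Scheme.{0}) (_ : IsIntegral X)
    (p : X ⟶ Spec (CommRingCat.of k)), LocallyOfFiniteType p → HasFF k ρ X p →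
      HilbertProperty k X p ∧
        ((∀ x : X, IsIntegrallyClosed (X.presheaf.stalk x)) → HilbertPropertyIso k X p)

theorem quot_free (k : Type) [Field k] [CharZero k]
    (hk : ∃ S : Finset k, IntermediateField.adjoin ℚ (S : Set k) = ⊤) (H : Type) [Group H]
    (h : Free k H) : QuotHP k H := by
  intro N ρ X _ p _ hX
  obtain ⟨e, he⟩ := exists_equiv hX
  have h1 : HPF k (Inv ρ) := hpf_free k hk H h ρ
  have h2 : HilbertProperty k X p := Pool.Agent.W253.HP.sch k X p (Inv ρ) e he h1
  refine ⟨h2, fun hn q Y π hY hf hs hi => ?_⟩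
  refine h2 q Y π hY hf hs fun i hsur => ?_
  have := hY i
  exact hi i (Pool.Agent.W376.HP.nrm X (Y i) (π i) hn (hf i) (hs i) hsur)

end Pool.Agent.K3h17.HQ
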