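import Mathlib
import Pool.Agent.K3h17.HQ.Pl
import Pool.Agent.K3h17.HQ.Sm

/-! The function field of the spectrum of the ring of invariants. -/

set_option autoImplicit false

namespace Pool.Agent.K3h17.HQ

open AlgebraicGeometry CategoryTheory MvPolynomial W560.HP

variable {k : Type} [Field k] {H : Type} [Group H] {N : ℕ} (π : H →* Equiv.Perm (Fin N))

/-- The permutation representation. -/
noncomputable def prep : H →* GL (Fin N) k :=
  ((Matrix.permMatrixHom (n := Fin N) (R := k)).comp π).toHomUnits

theorem prep_aeval (h : H) (p : MvPolynomial (Fin N) k) :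
    aeval (fun i => ∑ j, C ((prep (k := k) π h : Matrix (Fin N) (Fin N) k) i j) * X j) p =
      rename (π h⁻¹) p := by
  have h1 : (aeval (fun i => ∑ j, C ((prep (k := k) π h : Matrix (Fin N) (Fin N) k) i j) * X j) :
      MvPolynomial (Fin N) k →ₐ[k] MvPolynomial (Fin N) k) = rename (π h⁻¹) := by
    apply MvPolynomial.algHom_ext
    intro i
    rw [aeval_X, rename_X]
    have h2 : ∀ j, (prep (k := k) π h : Matrix (Fin N) (Fin N) k) i j =
        if π h⁻¹ i = j then 1 else 0 := by
      intro j
      have h3 : (prep (k := k) π h : Matrix (Fin N) (Fin N) k) = ((π h)⁻¹).permMatrix k := rfl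
      rw [h3, Equiv.Perm.permMatrix, PEquiv.toMatrix_apply, map_inv]
      simp only [Equiv.toPEquiv_apply, Option.mem_def, Option.some.injEq]
    simp only [h2]
    rw [Finset.sum_eq_single (π h⁻¹ i)]
    · rw [if_pos rfl, C_1, one_mul]
    · intro j _ hj
      rw [if_neg (Ne.symm hj), C_0, zero_mul]
    · intro h3
      exact absurd (Finset.mem_univ _) h3
  rw [h1]

theorem isInv_prep (z : FractionRing (MvPolynomial (Fin N) k)) : IsInv (prep (k := k) π) z ↔
    ∀ (h : H) (p q : MvPolynomial (Fin N) k), q ≠ 0 → z * algebraMap _ _ q = algebraMap _ _ p →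
      rename (π h) p * q = p * rename (π h) q := by
  unfold IsInv
  constructor
  · intro hz h p q hq hpq
    have h1 := hz h⁻¹ p q hq hpq
    rwa [prep_aeval, prep_aeval, inv_inv] at h1
  · intro hz h p q hq hpq
    rw [prep_aeval, prep_aeval]
    exact hz h⁻¹ p q hq hpq

theorem range_B [Finite H] (z : FractionRing (MvPolynomial (Fin N) k)) :
    IsInv (prep (k := k) π) z ↔ ∃ a b : Bk (k := k) π, b ≠ 0 ∧
      z * algebraMap _ _ (b : MvPolynomial (Fin N) k) =
        algebraMap _ _ (a : MvPolynomial (Fin N) k) := by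
  classical
  have := Fintype.ofFinite H
  have hinj : Function.Injective (algebraMap (MvPolynomial (Fin N) k) (FR N k)) :=
    IsFractionRing.injective (MvPolynomial (Fin N) k) (FR N k)
  have hrinj : ∀ h : H, Function.Injective (rename (π h) :
      MvPolynomial (Fin N) k →ₐ[k] MvPolynomial (Fin N) k) := fun h =>
    rename_injective _ (π h).injective
  rw [isInv_prep]
  constructor
  · intro hz
    obtain ⟨p, q, hq, hpq⟩ := IsFractionRing.div_surjective (A := MvPolynomial (Fin N) k) z
    have hq0 : q ≠ 0 := nonZeroDivisors.ne_zero hq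
    have hq1 : algebraMap (MvPolynomial (Fin N) k) (FR N k) q ≠ 0 := by
      rw [Ne, map_eq_zero_iff _ hinj]
      exact hq0
    have hzq : z * algebraMap _ _ q = algebraMap _ _ p := by
      rw [← hpq]
      exact div_mul_cancel₀ _ hq1
    have hren : ∀ (g h : H) (r : MvPolynomial (Fin N) k),
        rename (π g) (rename (π h) r) = rename (π (g * h)) r := by
      intro g h r
      rw [rename_rename, map_mul]
      rfl
    have hren1 : ∀ (r : MvPolynomial (Fin N) k), rename (π 1) r = r := by
      intro r
      rw [map_one]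
      exact rename_id_apply r
    let Nq : MvPolynomial (Fin N) k := ∏ h : H, rename (π h) q
    let M : MvPolynomial (Fin N) k := ∏ h ∈ Finset.univ.erase (1 : H), rename (π h) q
    have hNM : Nq = q * M := by
      have h1 := Finset.mul_prod_erase Finset.univ (fun h : H => rename (π h) q)
        (Finset.mem_univ 1)
      rw [hren1] at h1
      exact h1.symm
    have hN : ∀ g : H, rename (π g) Nq = Nq := by
      intro g
      change rename (π g) (∏ h : H, rename (π h) q) = ∏ h : H, rename (π h) q
      rw [map_prod]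
      simp only [hren]
      exact Fintype.prod_equiv (Equiv.mulLeft g) _ _ fun h => rfl
    have hN0 : Nq ≠ 0 := Finset.prod_ne_zero_iff.2 fun h _ h0 =>
      hq0 (hrinj h (h0.trans (map_zero _).symm))
    have hp : ∀ g : H, rename (π g) (p * M) = p * M := by
      intro g
      have h1 := hz g p q hq0 hzq
      have h2 : rename (π g) q * rename (π g) M = q * M := by
        rw [← map_mul, ← hNM, hN]
      have h3 : rename (π g) q ≠ 0 := fun h0 => hq0 (hrinj g (h0.trans (map_zero _).symm))
      have h4 : rename (π g) (p * M) * q * rename (π g) q = (p * M) * q * rename (π g) q := by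
        rw [map_mul]
        calc rename (π g) p * rename (π g) M * q * rename (π g) q
            = (rename (π g) p * q) * (rename (π g) q * rename (π g) M) := by ring
          _ = (p * rename (π g) q) * (q * M) := by rw [h1, h2]
          _ = (p * M) * q * rename (π g) q := by ring
      exact mul_right_cancel₀ hq0 (mul_right_cancel₀ h3 h4)
    refine ⟨⟨p * M, hp⟩, ⟨Nq, hN⟩, fun h0 => hN0 (congrArg Subtype.val h0), ?_⟩
    change z * algebraMap _ _ Nq = algebraMap _ _ (p * M)
    rw [hNM, map_mul, ← mul_assoc, hzq, map_mul]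
  · rintro ⟨a, b, hb, hab⟩ h p q hq hpq
    have hb0 : (b : MvPolynomial (Fin N) k) ≠ 0 := fun h0 => hb (Subtype.ext h0)
    have h1 : (a : MvPolynomial (Fin N) k) * q = p * b := by
      apply hinj
      rw [map_mul, map_mul, ← hab, ← hpq]
      ring
    have h2 := congrArg (rename (π h)) h1
    rw [map_mul, map_mul, a.2 h, b.2 h] at h2
    refine mul_right_cancel₀ hb0 ?_
    calc rename (π h) p * q * (b : MvPolynomial (Fin N) k)
        = (rename (π h) p * b) * q := by ring
      _ = ((a : MvPolynomial (Fin N) k) * q) * rename (π h) q := by rw [← h2]; ring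
      _ = p * rename (π h) q * b := by rw [h1]; ring

theorem hasFF_B [Finite H] : HasFF k (prep (k := k) π) (Spec (CommRingCat.of (Bk (k := k) π)))
    (Spec.map (CommRingCat.ofHom (algebraMap k (Bk (k := k) π)))) := by
  classical
  let B := Bk (k := k) π
  let X : Scheme.{0} := Spec (CommRingCat.of B)
  let p : X ⟶ Spec (CommRingCat.of k) := Spec.map (CommRingCat.ofHom (algebraMap k B))
  have hinj : Function.Injective (algebraMap (MvPolynomial (Fin N) k) (FR N k)) :=
    IsFractionRing.injective (MvPolynomial (Fin N) k) (FR N k)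
  have hne : Nonempty ((⊤ : X.Opens)) := ⟨⟨genericPoint X, trivial⟩⟩
  have hfr := functionField_isFractionRing_of_isAffineOpen X ⊤ (isAffineOpen_top X)
  let g : Γ(X, ⊤) →+* FR N k := ((algebraMap (MvPolynomial (Fin N) k) (FR N k)).comp
    B.val.toRingHom).comp (Scheme.ΓSpecIso (CommRingCat.of B)).hom.hom
  have hbij := ConcreteCategory.bijective_of_isIso (Scheme.ΓSpecIso (CommRingCat.of B)).hom
  have hgi : Function.Injective g := (hinj.comp Subtype.val_injective).comp hbij.1
  let e : X.functionField →+* FR N k := IsFractionRing.lift (A := Γ(X, ⊤)) hgi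
  have he : ∀ x : Γ(X, ⊤), e (algebraMap Γ(X, ⊤) X.functionField x) = g x := fun x =>
    IsFractionRing.lift_algebraMap hgi x
  refine ⟨e, fun a => ?_, ?_⟩
  · have h1 : toFF k X p a = algebraMap Γ(X, ⊤) X.functionField
        (p.appTop.hom ((Scheme.ΓSpecIso (CommRingCat.of k)).inv.hom a)) := rfl
    have h2 := Scheme.ΓSpecIso_inv_naturality (CommRingCat.ofHom (algebraMap k B))
    have h3 : p.appTop.hom ((Scheme.ΓSpecIso (CommRingCat.of k)).inv.hom a) =
        (Scheme.ΓSpecIso (CommRingCat.of B)).inv.hom (algebraMap k B a) :=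
      (congrArg (fun f => f.hom a) h2).symm
    change e (toFF k X p a) = _
    rw [h1, he, h3]
    have h4 : (Scheme.ΓSpecIso (CommRingCat.of B)).hom.hom
        ((Scheme.ΓSpecIso (CommRingCat.of B)).inv.hom (algebraMap k B a)) = algebraMap k B a :=
      congrArg (fun f => f.hom (algebraMap k B a))
        (Scheme.ΓSpecIso (CommRingCat.of B)).inv_hom_id
    change algebraMap (MvPolynomial (Fin N) k) (FR N k) ((Scheme.ΓSpecIso
      (CommRingCat.of B)).hom.hom ((Scheme.ΓSpecIso (CommRingCat.of B)).inv.hom
        (algebraMap k B a)) : B) = _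
    rw [h4]
    rfl
  · ext z
    rw [Set.mem_ofPred_eq, range_B]
    constructor
    · rintro ⟨x, rfl⟩
      obtain ⟨a, b, hb, rfl⟩ := IsFractionRing.div_surjective (A := Γ(X, ⊤)) x
      have hb0 : b ≠ 0 := nonZeroDivisors.ne_zero hb
      refine ⟨(Scheme.ΓSpecIso (CommRingCat.of B)).hom.hom a,
        (Scheme.ΓSpecIso (CommRingCat.of B)).hom.hom b, ?_, ?_⟩
      · intro h0
        exact hb0 (hbij.1 (h0.trans (map_zero _).symm))
      · change e _ * g b = g a
        rw [map_div₀, he, he]
        refine div_mul_cancel₀ _ ?_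
        rw [Ne, map_eq_zero_iff _ hgi]
        exact hb0
    · rintro ⟨a, b, hb, hab⟩
      obtain ⟨a', ha'⟩ := hbij.2 a
      obtain ⟨b', hb'⟩ := hbij.2 b
      have hga : g a' = algebraMap _ _ (a : MvPolynomial (Fin N) k) :=
        congrArg (fun x : B => algebraMap (MvPolynomial (Fin N) k) (FR N k) x) ha'
      have hgb : g b' = algebraMap _ _ (b : MvPolynomial (Fin N) k) :=
        congrArg (fun x : B => algebraMap (MvPolynomial (Fin N) k) (FR N k) x) hb'
      have hb0 : algebraMap (MvPolynomial (Fin N) k) (FR N k) (b : MvPolynomial (Fin N) k) ≠ 0 := by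
        rw [Ne, map_eq_zero_iff _ hinj]
        intro h0
        exact hb (Subtype.ext h0)
      refine ⟨algebraMap Γ(X, ⊤) X.functionField a' / algebraMap Γ(X, ⊤) X.functionField b', ?_⟩
      rw [map_div₀, he, he, hga, hgb, div_eq_iff hb0]
      exact hab.symm

end Pool.Agent.K3h17.HQ
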