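import Mathlib
import Pool.Agent.K3h17.HQ.Dec
import Pool.Agent.W253.HP.Sch

/-! Rational points of `Spec B` which do not lift to the invariants of proper subgroups. -/

set_option autoImplicit false

namespace Pool.Agent.K3h17.HQ

open AlgebraicGeometry CategoryTheory W560.HP

theorem not_surj_stalk {B C : Type} [CommRing B] [IsDomain B] [CommRing C] [IsDomain C]
    [Algebra B C] (hs : Surjective (Spec.map (CommRingCat.ofHom (algebraMap B C)))) (c : C)
    (hc : ∀ a d : B, d ≠ 0 → c * algebraMap B C d ≠ algebraMap B C a) :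
    ¬ Function.Surjective ((Spec.map (CommRingCat.ofHom (algebraMap B C))).stalkMap
      (genericPoint (Spec (CommRingCat.of C)))).hom := by
  intro hsur
  let X : Scheme.{0} := Spec (CommRingCat.of B)
  let Y : Scheme.{0} := Spec (CommRingCat.of C)
  let π : Y ⟶ X := Spec.map (CommRingCat.ofHom (algebraMap B C))
  have hπs : Surjective π := hs
  have hx := Pool.Agent.W253.HP.generic_map π
  have hxU : π (genericPoint Y) ∈ (⊤ : X.Opens) := trivial
  have hyV : genericPoint Y ∈ (⊤ : Y.Opens) := trivial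
  obtain ⟨hX1, hX2⟩ := Pool.Agent.W253.HP.stalk_frac X ⊤ (isAffineOpen_top X)
    (π (genericPoint Y)) hx hxU
  obtain ⟨hY1, hY2⟩ := Pool.Agent.W253.HP.stalk_frac Y ⊤ (isAffineOpen_top Y)
    (genericPoint Y) rfl hyV
  have hg : ∀ a : Γ(X, ⊤), (π.stalkMap (genericPoint Y)).hom
      (X.presheaf.germ ⊤ (π (genericPoint Y)) hxU a) =
      Y.presheaf.germ ⊤ (genericPoint Y) hyV ((π.app ⊤).hom a) := fun a =>
    Scheme.Hom.germ_stalkMap_apply π ⊤ (genericPoint Y) hxU a
  let b : Γ(Y, ⊤) := (Scheme.ΓSpecIso (CommRingCat.of C)).inv.hom c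
  obtain ⟨r, hr⟩ := hsur (Y.presheaf.germ ⊤ (genericPoint Y) hyV b)
  obtain ⟨a, d, hd, h1⟩ := hX2 r
  have h2 := congrArg (π.stalkMap (genericPoint Y)).hom h1
  rw [map_mul, hg, hg] at h2
  have hr' : (π.stalkMap (genericPoint Y)).hom r = Y.presheaf.germ ⊤ (genericPoint Y) hyV b := hr
  rw [hr'] at h2
  let πd : Γ(Y, ⊤) := (π.app ⊤).hom d
  let πa : Γ(Y, ⊤) := (π.app ⊤).hom a
  have h2' : Y.presheaf.germ ⊤ (genericPoint Y) hyV (b * πd) =
      Y.presheaf.germ ⊤ (genericPoint Y) hyV πa := (map_mul _ _ _).trans h2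
  have hgi : Function.Injective (Y.presheaf.germ ⊤ (genericPoint Y) hyV) := by
    intro u v huv
    by_contra hne
    have h3 := hY1 (u - v) (sub_ne_zero.2 hne)
    rw [map_sub, huv, sub_self] at h3
    exact not_isUnit_zero h3
  have h3 : b * πd = πa := hgi h2'
  -- translate
  have hbij := ConcreteCategory.bijective_of_isIso (Scheme.ΓSpecIso (CommRingCat.of B)).inv
  obtain ⟨a', ha'⟩ := hbij.2 a
  obtain ⟨d', hd'⟩ := hbij.2 d
  have hbijC := ConcreteCategory.bijective_of_isIso (Scheme.ΓSpecIso (CommRingCat.of C)).inv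
  have hnat : ∀ x : B, (π.app ⊤).hom ((Scheme.ΓSpecIso (CommRingCat.of B)).inv.hom x) =
      (Scheme.ΓSpecIso (CommRingCat.of C)).inv.hom (algebraMap B C x) := by
    intro x
    have h4 := Scheme.ΓSpecIso_inv_naturality (CommRingCat.ofHom (algebraMap B C))
    have h5 := congrArg (fun f => f.hom x) h4
    exact h5.symm
  have hd0 : d' ≠ 0 := by
    rintro rfl
    apply hd
    rw [← hd']
    exact map_zero _
  refine hc a' d' hd0 (hbijC.1 ?_)
  have h6 : (Scheme.ΓSpecIso (CommRingCat.of C)).inv.hom (c * algebraMap B C d') =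
      (Scheme.ΓSpecIso (CommRingCat.of C)).inv.hom (algebraMap B C a') := by
    have e1 : (Scheme.ΓSpecIso (CommRingCat.of C)).inv.hom (algebraMap B C d') = πd := by
      rw [← hnat]
      exact congrArg (π.app ⊤).hom hd'
    have e2 : (Scheme.ΓSpecIso (CommRingCat.of C)).inv.hom (algebraMap B C a') = πa := by
      rw [← hnat]
      exact congrArg (π.app ⊤).hom ha'
    rw [map_mul, e1, e2]
    exact h3
  exact h6

theorem exists_point {k B R Γ : Type} [Field k] [CommRing B] [IsDomain B] [CommRing R] [IsDomain R]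
    [Algebra k B] [Algebra B R] [Group Γ] [Finite Γ] [MulSemiringAction Γ R] [SMulCommClass Γ B R]
    [Algebra.IsInvariant B R Γ] [FaithfulSMul B R] [IsNoetherianRing B] [Module.Finite B R]
    (hHP : HilbertProperty k (Spec (CommRingCat.of B))
      (Spec.map (CommRingCat.ofHom (algebraMap k B)))) (s : B) (hs : s ≠ 0)
    (hθ : ∀ U : Subgroup Γ, U ≠ ⊤ → ∃ c ∈ fixU (B := B) (R := R) Γ U, ∃ g : Γ, g • c ≠ c) :
    ∃ φ : B →ₐ[k] k, φ s ≠ 0 ∧ ∀ U : Subgroup Γ, U ≠ ⊤ →
      ∀ ψ : fixU (B := B) (R := R) Γ U →+* k, (∀ b : B, ψ (algebraMap B _ b) = φ b) → False := by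
  classical
  have hfs : Finite {U : Subgroup Γ // U ≠ ⊤} := inferInstance
  let q := Nat.card {U : Subgroup Γ // U ≠ ⊤}
  let e : Fin q ≃ {U : Subgroup Γ // U ≠ ⊤} := (Finite.equivFin _).symm
  let C : Fin q → Type := fun i => fixU (B := B) (R := R) Γ (e i).1
  let Y : Fin q → Scheme.{0} := fun i => Spec (CommRingCat.of (C i))
  let X : Scheme.{0} := Spec (CommRingCat.of B)
  let π : ∀ i, Y i ⟶ X := fun i => Spec.map (CommRingCat.ofHom (algebraMap B (C i)))
  have hNR : IsNoetherian B R := isNoetherian_of_isNoetherianRing_of_finite B R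
  have hfinC : ∀ i, Module.Finite B (C i) := fun i =>
    Module.Finite.of_injective (fixU (B := B) (R := R) Γ (e i).1).val.toLinearMap
      Subtype.val_injective
  have hinjC : ∀ i, Function.Injective (algebraMap B (C i)) := by
    intro i x y hxy
    exact FaithfulSMul.algebraMap_injective B R (congrArg Subtype.val hxy)
  have hfin : ∀ i, IsFinite (π i) := by
    intro i
    rw [IsFinite.SpecMap_iff]
    exact RingHom.finite_algebraMap.2 (hfinC i)
  have hsur : ∀ i, Surjective (π i) := by
    intro i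
    refine ⟨fun x => ?_⟩
    have h1 : Function.Surjective (PrimeSpectrum.comap (algebraMap B (C i))) := by
      have : Algebra.IsIntegral B (C i) := inferInstance
      have : FaithfulSMul B (C i) := (faithfulSMul_iff_algebraMap_injective _ _).2 (hinjC i)
      exact Algebra.IsIntegral.comap_surjective _ _
    exact h1 x
  have hns : ∀ i, ¬ Function.Surjective ((π i).stalkMap (genericPoint (Y i))).hom := by
    intro i
    obtain ⟨c, hc, g, hg⟩ := hθ (e i).1 (e i).2
    refine not_surj_stalk (hsur i) (⟨c, hc⟩ : C i) fun a d hd h => hg ?_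
    have h1 : c * algebraMap B R d = algebraMap B R a := congrArg Subtype.val h
    have h2 := congrArg (fun x => g • x) h1
    simp only [smul_mul'] at h2
    have h3 : ∀ x : B, g • algebraMap B R x = algebraMap B R x := fun x => by
      rw [Algebra.algebraMap_eq_smul_one, smul_comm, smul_one]
    rw [h3, h3, ← h1] at h2
    have h4 : algebraMap B R d ≠ 0 := by
      rw [Ne, map_eq_zero_iff _ (FaithfulSMul.algebraMap_injective B R)]
      exact hd
    exact mul_right_cancel₀ h4 h2
  have hd := hHP q Y π (fun i => inferInstance) hfin hsur hns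
  have hopen : IsOpen {x : X | s ∉ x.asIdeal} := (PrimeSpectrum.basicOpen s).2
  have hne : Set.Nonempty {x : X | s ∉ x.asIdeal} :=
    ⟨(⟨⊥, Ideal.isPrime_bot⟩ : PrimeSpectrum B), fun h => hs h⟩
  obtain ⟨x, hx1, σ, hσ, ⟨y, hy⟩, hlift⟩ := hd.inter_open_nonempty _ hopen hne
  let f : CommRingCat.of B ⟶ CommRingCat.of k := Spec.preimage σ
  have hf : Spec.map f = σ := Spec.map_preimage σ
  have hfk : ∀ a : k, f.hom (algebraMap k B a) = a := by
    intro a
    have h1 : Spec.map (CommRingCat.ofHom (algebraMap k B) ≫ f) = Spec.map (𝟙 _) := by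
      rw [Spec.map_comp, hf, hσ, Spec.map_id]
    have h2 := Spec.map_injective h1
    have h3 := congrArg (fun g => g.hom a) h2
    exact h3
  refine ⟨{ f.hom with commutes' := hfk }, ?_, ?_⟩
  · intro h0
    apply hx1
    rw [← hy, ← hf]
    change f.hom s ∈ y.asIdeal
    have h1 : f.hom s = 0 := h0
    rw [h1]
    exact Ideal.zero_mem _
  · intro U hU ψ hψ
    obtain ⟨i, hi⟩ := e.surjective ⟨U, hU⟩
    have hi' : (e i).1 = U := congrArg Subtype.val hi
    subst hi'
    refine hlift i (Spec.map (CommRingCat.ofHom (S := k) (ψ : C i →+* k))) ?_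
    rw [← hf, ← Spec.map_comp]
    congr 1
    ext b
    exact hψ b

end Pool.Agent.K3h17.HQ
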