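import Mathlib
import Pool.Agent.K3h17.HQ.Ff
import Pool.Agent.K3h17.HQ.Spc

/-! The converse: the Hilbert property of the quotients realizes the group. -/

set_option autoImplicit false

namespace Pool.Agent.K3h17.HQ

open AlgebraicGeometry CategoryTheory MvPolynomial W560.HP

attribute [local instance] algBk

/-- The discriminant. -/
noncomputable def disc (k : Type) [Field k] (N : ℕ) : MvPolynomial (Fin N) k :=
  ∏ p ∈ (Finset.univ : Finset (Fin N)).offDiag, (X p.1 - X p.2)

theorem disc_rename {k : Type} [Field k] {N : ℕ} (σ : Equiv.Perm (Fin N)) :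
    rename σ (disc k N) = disc k N := by
  unfold disc
  rw [map_prod]
  refine Finset.prod_equiv (Equiv.prodCongr σ σ) (fun p => ?_) fun p _ => ?_
  · simp only [Finset.mem_offDiag, Finset.mem_univ, true_and, Equiv.prodCongr_apply, Prod.map_fst,
      Prod.map_snd, Ne, EmbeddingLike.apply_eq_iff_eq]
  · rw [map_sub, rename_X, rename_X]
    rfl

theorem disc_ne {k : Type} [Field k] {N : ℕ} : disc k N ≠ 0 := by
  unfold disc
  refine Finset.prod_ne_zero_iff.2 fun p hp => ?_
  rw [Finset.mem_offDiag] at hp
  exact sub_ne_zero.2 fun h => hp.2.2 (X_injective h)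

theorem disc_dvd {k : Type} [Field k] {N : ℕ} (i j : Fin N) (hij : i ≠ j) :
    (X i - X j : MvPolynomial (Fin N) k) ∣ disc k N := by
  refine Finset.dvd_prod_of_mem (fun p : Fin N × Fin N => (X p.1 - X p.2 : MvPolynomial (Fin N) k))
    (a := (i, j)) ?_
  rw [Finset.mem_offDiag]
  exact ⟨Finset.mem_univ _, Finset.mem_univ _, hij⟩

/-- The regular representation. -/
noncomputable def regPerm (H : Type) [Group H] [Finite H] : H →* Equiv.Perm (Fin (Nat.card H)) :=
  ((Equiv.permCongrHom (Finite.equivFin H)).toMonoidHom).comp (MulAction.toPermHom H H)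

theorem regPerm_apply (H : Type) [Group H] [Finite H] (h : H) :
    regPerm H h (Finite.equivFin H 1) = Finite.equivFin H h := by
  change Finite.equivFin H (h * (Finite.equivFin H).symm (Finite.equivFin H 1)) = _
  rw [Equiv.symm_apply_apply, mul_one]

theorem free_of_quot (k : Type) [Field k] [CharZero k] (H : Type) [Group H] [Finite H]
    (hq : QuotHP k H) : Free k H := by
  classical
  intro L _ _ _ _
  let N := Nat.card H
  let π : H →* Equiv.Perm (Fin N) := regPerm H
  let i₀ : Fin N := Finite.equivFin H 1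
  have hi₀ : ∀ h, π h i₀ = i₀ → h = 1 := by
    intro h hh
    have h1 : Finite.equivFin H h = Finite.equivFin H 1 := (regPerm_apply H h).symm.trans hh
    exact (Finite.equivFin H).injective h1
  let B := Bk (k := k) π
  let R := MvPolynomial (Fin N) L
  let Γ := H × (L ≃ₐ[k] L)
  let _ : MulSemiringAction Γ R := mact (k := k) π L
  have i1 : SMulCommClass Γ B R := smulComm (k := k) π L
  have i2 : Algebra.IsInvariant B R Γ := isInvt (k := k) π L
  obtain ⟨i3, i4⟩ := finT (k := k) π L
  have i5 : IsNoetherianRing B := Algebra.FiniteType.isNoetherianRing k B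
  have i6 : FaithfulSMul B R := (faithfulSMul_iff_algebraMap_injective _ _).2 (alg_inj π L)
  have i7 : IsScalarTower k B R := towerBk π L
  have i8 : Finite Γ := inferInstance
  have hlft : LocallyOfFiniteType (Spec.map (CommRingCat.ofHom (algebraMap k B))) := by
    rw [HasRingHomProperty.Spec_iff (P := @LocallyOfFiniteType)]
    exact RingHom.finiteType_algebraMap.2 i4
  have hHP := (hq N (prep (k := k) π) (Spec (CommRingCat.of B)) inferInstance
    (Spec.map (CommRingCat.ofHom (algebraMap k B))) hlft (hasFF_B π)).1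
  let s : B := ⟨disc k N, fun h => disc_rename _⟩
  have hs : s ≠ 0 := fun h0 => disc_ne (congrArg Subtype.val h0)
  obtain ⟨φ, hφs, hφ⟩ := exists_point (k := k) (B := B) (R := R) (Γ := Γ) hHP s hs
    fun U hU => exists_noninv (k := k) π L i₀ hi₀ U hU
  obtain ⟨κ, j1, j2, q, θ, hqs, j3, j4, hqb, hθs, hθ⟩ := dec (B := B) (R := R) Γ φ hφ
  have hqC : ∀ a : k, q (C (algebraMap k L a)) = algebraMap k κ a := fun a => q.commutes a
  let cL : L →+* κ := q.toRingHom.comp C
  have hsm : ∀ (g : Γ) (x : R), g • x = act π L g x := fun g x => rfl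
  have hθL : ∀ (g : Γ) (a : L), θ g (cL a) = cL (g.2 a) := by
    intro g a
    change θ g (q (C a)) = q (C (g.2 a))
    rw [hθ, hsm, act_C]
  have hθX : ∀ (g : Γ) (i : Fin N), θ g (q (X i)) = q (X (π g.1 i)) := by
    intro g i
    rw [hθ, hsm, act_X]
  have hθi : Function.Injective θ := by
    rw [injective_iff_map_eq_one]
    intro g hg
    have h2 : g.2 = 1 := by
      apply AlgEquiv.ext
      intro a
      apply cL.injective
      rw [← hθL, hg]
      rfl
    have h1 : g.1 = 1 := by
      apply hi₀
      by_contra hne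
      have h3 := hθX g i₀
      rw [hg] at h3
      have h4 : q (X i₀) = q (X (π g.1 i₀)) := h3
      obtain ⟨t, ht⟩ := disc_dvd (k := L) (π g.1 i₀) i₀ hne
      have h5 : algebraMap B R s = disc L N := by
        rw [alg_apply]
        change MvPolynomial.map (algebraMap k L) (disc k N) = disc L N
        unfold disc
        rw [map_prod]
        refine Finset.prod_congr rfl fun p _ => ?_
        rw [map_sub, MvPolynomial.map_X, MvPolynomial.map_X]
      have h6 := hqb s
      rw [h5, ht, map_mul, map_sub, h4, sub_self, zero_mul] at h6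
      exact hφs ((map_eq_zero_iff _ (algebraMap k κ).injective).1 h6.symm)
    exact Prod.ext h1 h2
  let aL : Algebra L κ := cL.toAlgebra
  have hT : IsScalarTower k L κ := IsScalarTower.of_algebraMap_eq fun a => (hqC a).symm
  let γ : Γ ≃* (κ ≃ₐ[k] κ) := MulEquiv.ofBijective θ ⟨hθi, hθs⟩
  refine ⟨κ, j1, j2, aL, hT, j3, j4, γ.symm, fun σ => ?_⟩
  obtain ⟨g, rfl⟩ := γ.surjective σ
  rw [MulEquiv.symm_apply_apply]
  apply AlgEquiv.ext
  intro a
  apply cL.injective
  rw [← hθL]
  exact (AlgEquiv.restrictNormal_commutes (γ g) L a).symm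

end Pool.Agent.K3h17.HQ
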