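import Mathlib
import Pool.Agent.K3h17.HQ.Cv
import Pool.Agent.K3h17.T.Gm

/-! The main theorems. -/

set_option autoImplicit false

namespace Pool.Agent.K3h17.HQ

open Pool.Agent.H391R2.T4 (RegSol HilbField)
open Pool.Agent.H391R2 (Wr)
open Pool.Agent.TH444.TW

/-- `k` is a finitely generated field. -/
def FG (k : Type) [Field k] [CharZero k] : Prop :=
  ∃ S : Finset k, IntermediateField.adjoin ℚ (S : Set k) = ⊤

theorem hilb_fg {k : Type} [Field k] [CharZero k] (hk : FG k) : HilbField k := by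
  obtain ⟨S, hS⟩ := hk
  exact Pool.Agent.W583.HP.fg k S hS

theorem free_unit (k : Type) [Field k] : Free k Unit := by
  intro L _ _ _ _
  refine ⟨L, inferInstance, inferInstance, inferInstance, inferInstance, inferInstance,
    inferInstance, MulEquiv.uniqueProd.symm, fun σ => ?_⟩
  apply AlgEquiv.ext
  intro x
  exact (AlgEquiv.restrictNormal_commutes σ L x).symm

/-- The criterion. -/
theorem main_iff (k : Type) [Field k] [CharZero k] (hk : FG k) (H : Type) [Group H] [Finite H] :
    QuotHP k H ↔ ∀ m, GalGp k (Fin m → H) :=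
  ⟨fun h => free_pow (free_of_quot k H h), fun h => quot_free k hk H (free_of_pow h)⟩

theorem GalGp.congr {k A A' : Type} [Field k] [Group A] [Group A'] (e : A ≃* A')
    (h : GalGp k A) : GalGp k A' := by
  obtain ⟨M, i1, i2, i3, i4, ⟨f⟩⟩ := h
  exact ⟨M, i1, i2, i3, i4, ⟨f.trans e⟩⟩

/-- The inverse Galois problem is the Hilbert property of the linear quotients. -/
theorem main_igp (k : Type) [Field k] [CharZero k] (hk : FG k) :
    (∀ (H : Type) [Group H] [Finite H], QuotHP k H) ↔
      ∀ (H : Type) [Group H] [Finite H], GalGp k H := by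
  constructor
  · intro h H _ _
    have h1 := (main_iff k hk H).1 (h H) 1
    exact GalGp.congr (MulEquiv.piUnique (fun _ : Fin 1 => H)) h1
  · intro h H _ _
    exact (main_iff k hk H).2 fun m => h (Fin m → H)

theorem main_cls (k : Type) [Field k] [CharZero k] (hk : FG k) {W W' : Type} [Group W]
    [Finite W] [Group W'] (p : W' →* W) (hp : Cls k p) (h : QuotHP k W) : QuotHP k W' :=
  quot_free k hk W' (free_step (hilb_fg hk) hp (free_of_quot k W h))

theorem main_wr (G : Type) [Group G] [Finite G] (n : ℕ)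
    (hn : ((3 * Nat.card G + 2).factorial) ^ 3 ≤ n) (k : Type) [Field k] [CharZero k]
    (hk : FG k) : QuotHP k (Wr G n) := by
  have h1 : Cls k (1 : Wr G n →* Unit) := by
    refine Cls.wreath _ G n hn ⟨1, 1, Pi.evalMonoidHom (fun _ : Fin 1 => Wr G n) 0, 1, ?_, ?_,
      fun w => rfl, ?_⟩
    · intro x y hxy
      funext i
      rw [Subsingleton.elim i 0]
      exact hxy
    · ext z
      exact ⟨fun _ => rfl, fun _ => ⟨fun _ => z, rfl⟩⟩
    · intro w x
      rw [MonoidHom.one_apply, one_mul, mul_one]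
      change x 0 = twist 1 (x 0)
      exact SemidirectProduct.ext (funext fun j => rfl) rfl
  exact quot_free k hk _ (free_step (hilb_fg hk) h1 (free_unit k))

theorem main_int (G : Type) [Group G] [Finite G] (m : ℕ)
    (hm : 2 * Nat.card (Abelianization G) + 2 ≤ m) (hev : Even m) :
    ∃ r₀ : ℕ, ∀ r ≥ r₀, r.Coprime (2 * Nat.card G) → ∃ j₀ : ℕ, ∀ j ≥ j₀,
      (2 * j + 1).Coprime (Nat.card G) → ∀ H : Subgroup (Wr G (m * r * (2 * j + 1))),
        commutator (Wr G (m * r * (2 * j + 1))) ≤ H →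
        ∀ (k : Type) [Field k] [CharZero k], FG k → QuotHP k H := by
  obtain ⟨r₀, h⟩ := Pool.Agent.K3h17.T.mainI_unif G m hm hev
  refine ⟨r₀, fun r hr hrc => ?_⟩
  obtain ⟨k₀, h2⟩ := h r hr hrc
  refine ⟨k₀, fun j hj hjc H hH k _ _ hk => ?_⟩
  have hf : Finite (Wr G (m * r * (2 * j + 1))) := Pool.Agent.H391R2.T4.finite_wr G _
  exact quot_free k hk _ (free_of_reg (hilb_fg hk) (h2 j hj hjc H hH k))

end Pool.Agent.K3h17.HQ
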