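import Mathlib
import Pool.Agent.K3h17.HQ.Inv
import Pool.Agent.TH59.WX.UF
import Pool.Agent.TH444.TW.Cyc
import Pool.Agent.W583.HP.FG
import Pool.Agent.W405.HP.Hit

/-! Groups with a regular realization occur over Hilbertian fields disjointly from every extension. -/

set_option autoImplicit false

namespace Pool.Agent.K3h17.HQ

open Pool.Agent.H391R2.T4 (RegSol HilbField)
open W560.HP

theorem occ_of_reg (k : Type) [Field k] [CharZero k] (hk : HilbField k) (H : Type) [Group H]
    [Finite H] (h : RegSol k k H 1) {N : ℕ} (ρ : H →* GL (Fin N) k)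
    (E : IntermediateField k (AlgebraicClosure k)) (hE : FiniteDimensional k E) :
    Occ ρ (AlgebraicClosure k) E := by
  classical
  let Fb := AlgebraicClosure k
  let L : IntermediateField k Fb := IntermediateField.normalClosure k E Fb
  have hLfin : FiniteDimensional k L := normalClosure.is_finiteDimensional k E Fb
  have hLn : Normal k L := normalClosure.normal k E Fb
  have hLg : IsGalois k L := ⟨⟩
  have hEL : E ≤ L := IntermediateField.le_normalClosure E
  let φ : (L ≃ₐ[k] L) →* MulAut H := 1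
  have h1 := Pool.Agent.TH444.TW.reg_prod (K := k) (L := L) φ (fun g => rfl) h
  have hfX : Finite (H ⋊[φ] (L ≃ₐ[k] L)) := Finite.of_equiv _ SemidirectProduct.equivProd.symm
  obtain ⟨F, i1, i2, i3, i4, i5, i6, γ, hγ⟩ := Pool.Agent.TH59.WX.hil_of_reg k L _ hk _ h1
  have hfLF : FiniteDimensional L F := Module.Finite.of_restrictScalars_finite k L F
  have haLF : Algebra.IsAlgebraic L F := Algebra.IsAlgebraic.of_finite L F
  let i : F →ₐ[L] Fb := IsAlgClosed.lift
  let _ : Algebra F Fb := i.toRingHom.toAlgebra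
  have hT1 : IsScalarTower L F Fb := IsScalarTower.of_algebraMap_eq fun x => (i.commutes x).symm
  have hT2 : IsScalarTower k F Fb := IsScalarTower.of_algebraMap_eq fun x => by
    rw [IsScalarTower.algebraMap_apply k L F, ← IsScalarTower.algebraMap_apply L F Fb,
      ← IsScalarTower.algebraMap_apply k L Fb]
  have hnF : Normal k F := inferInstance
  let lf : (F ≃ₐ[k] F) →* H := MonoidHom.mk' (fun τ => (γ τ).left) (by
    intro x y
    rw [map_mul, SemidirectProduct.mul_left]
    rfl)
  obtain ⟨A₀, hA₀, hA₀'⟩ := h90 k F (ρ.comp lf)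
  have hcomm : ∀ (σ : Fb ≃ₐ[k] Fb) (x : F), σ (algebraMap F Fb x) =
      algebraMap F Fb (σ.restrictNormal F x) := fun σ x =>
    (AlgEquiv.restrictNormal_commutes σ F x).symm
  refine ⟨fun σ => lf (σ.restrictNormal F), A₀.map (algebraMap F Fb), isUnit_map _ hA₀,
    fun σ => ?_, fun h => ?_⟩
  · have e1 : (A₀.map (algebraMap F Fb)).map (σ : Fb →+* Fb) =
        (A₀.map (σ.restrictNormal F)).map (algebraMap F Fb) := by
      ext a b
      exact hcomm σ _
    rw [e1, hA₀', Matrix.map_mul]
    congr 1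
    change (((ρ (lf (σ.restrictNormal F)⁻¹) : GL (Fin N) k) :
      Matrix (Fin N) (Fin N) k).map (algebraMap k F)).map (algebraMap F Fb) = _
    rw [map_inv lf]
    ext a b
    change algebraMap F Fb (algebraMap k F _) = algebraMap k Fb _
    rw [← IsScalarTower.algebraMap_apply k F Fb]
  · obtain ⟨σ, hσ⟩ := AlgEquiv.restrictNormalHom_surjective (F := k) (K₁ := F) Fb (γ.symm ⟨h, 1⟩)
    have hσ' : σ.restrictNormal F = γ.symm ⟨h, 1⟩ := hσ
    refine ⟨σ, fun x hx => ?_, ?_⟩
    · have h2 := hγ (γ.symm ⟨h, 1⟩)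
      rw [MulEquiv.apply_symm_apply] at h2
      have h3 : (γ.symm ⟨h, 1⟩).restrictNormal L = 1 := h2.symm
      have h4 : σ (algebraMap L Fb ⟨x, hEL hx⟩) = algebraMap L Fb ⟨x, hEL hx⟩ := by
        rw [IsScalarTower.algebraMap_apply L F Fb, hcomm, hσ']
        congr 1
        rw [← AlgEquiv.restrictNormal_commutes (γ.symm ⟨h, 1⟩) L, h3]
        rfl
      exact h4
    · change lf (σ.restrictNormal F) = h
      rw [hσ']
      change (γ (γ.symm ⟨h, 1⟩)).left = h
      rw [MulEquiv.apply_symm_apply]

/-- The Hilbert property of the fields of invariants of the groups with a regular realization. -/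
theorem hpf_reg (k : Type) [Field k] [CharZero k]
    (hk : ∃ S : Finset k, IntermediateField.adjoin ℚ (S : Set k) = ⊤) (H : Type) [Group H]
    [Finite H] (h : RegSol k k H 1) {N : ℕ} (ρ : H →* GL (Fin N) k) : HPF k (Inv ρ) := by
  obtain ⟨S, hS⟩ := hk
  have h1 : HilbF k := Pool.Agent.W583.HP.fg k S hS
  have h2 : HilbField k := h1
  refine hpf_inv (Fb := AlgebraicClosure k) ρ (Pool.Agent.W405.HP.hit k h1) (fun a ha => ?_)
    fun E hE => occ_of_reg k h2 H h ρ E hE
  have h3 : a ∈ (⊥ : IntermediateField k (AlgebraicClosure k)) := by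
    rw [InfiniteGalois.mem_bot_iff_fixed]
    exact ha
  exact IntermediateField.mem_bot.1 h3

end Pool.Agent.K3h17.HQ
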